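import Pool.Agent.SlowV.Int
import Pool.Agent.SubT.Dim1

/-! Complexity of `×2`, `×3`-invariant measures: counting in boxes.
Text: team-store MP_e27144_an_complexity_helper63.md. -/

namespace Pool.Agent.CplxN

open Pool.Agent.SubT Pool.Agent.SlowV

open scoped BigOperators ENNReal

open MeasureTheory Set

/-- the box `[0, n)²` -/
def bx (n : ℕ) : Finset (ℕ × ℕ) := Finset.range n ×ˢ Finset.range n

theorem mem_bx {n : ℕ} {p : ℕ × ℕ} : p ∈ bx n ↔ p.1 < n ∧ p.2 < n := by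
  simp [bx]

theorem card_bx (n : ℕ) : (bx n).card = n * n := by
  simp [bx]

/-- multiplication by `2 ^ p.1 * 3 ^ p.2` -/
def sp (p : ℕ × ℕ) (x : AddCircle (1 : ℝ)) : AddCircle (1 : ℝ) := (2 ^ p.1 * 3 ^ p.2 : ℕ) • x

theorem sp_add (p q : ℕ × ℕ) (x : AddCircle (1 : ℝ)) : sp (p + q) x = sp p (sp q x) := by
  unfold sp
  rw [smul_smul]
  congr 1
  simp only [Prod.fst_add, Prod.snd_add, pow_add]
  ring

open Classical in
/-- the number of the `p` in `A` with `2 ^ p.1 * 3 ^ p.2 x` in `S` -/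
noncomputable def cnt (A : Finset (ℕ × ℕ)) (S : Set (AddCircle (1 : ℝ))) (x : AddCircle (1 : ℝ)) : ℕ :=
  (A.filter (fun p => sp p x ∈ S)).card

theorem cnt_sum (A : Finset (ℕ × ℕ)) (S : Set (AddCircle (1 : ℝ))) (x : AddCircle (1 : ℝ)) :
    (∑ p ∈ A, (((fun y : AddCircle (1 : ℝ) => (2 ^ p.1 * 3 ^ p.2 : ℕ) • y) ⁻¹' S).indicator
        (fun _ => (1 : ℝ≥0∞)) x)) = (cnt A S x : ℝ≥0∞) := by
  classical
  unfold cnt
  rw [Finset.card_filter]
  push_cast
  refine Finset.sum_congr rfl fun p _ => ?_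
  by_cases h : sp p x ∈ S
  · rw [if_pos h, Set.indicator_of_mem (by exact h)]
  · rw [if_neg h, Set.indicator_of_notMem (by exact h)]

theorem cnt_mono {A B : Finset (ℕ × ℕ)} {S T : Set (AddCircle (1 : ℝ))} (hA : A ⊆ B) (hS : S ⊆ T)
    (x : AddCircle (1 : ℝ)) : cnt A S x ≤ cnt B T x := by
  classical
  apply Finset.card_le_card
  intro p hp
  rw [Finset.mem_filter] at hp ⊢
  exact ⟨hA hp.1, hS hp.2⟩

theorem cnt_le_card (A : Finset (ℕ × ℕ)) (S : Set (AddCircle (1 : ℝ))) (x : AddCircle (1 : ℝ)) :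
    cnt A S x ≤ A.card := by
  classical
  unfold cnt
  exact Finset.card_filter_le _ _

theorem cnt_union (A : Finset (ℕ × ℕ)) (S T U : Set (AddCircle (1 : ℝ))) (h : S ⊆ T ∪ U)
    (x : AddCircle (1 : ℝ)) : cnt A S x ≤ cnt A T x + cnt A U x := by
  classical
  unfold cnt
  refine (Finset.card_le_card ?_).trans (Finset.card_union_le _ _)
  intro p hp
  rw [Finset.mem_filter] at hp
  rw [Finset.mem_union, Finset.mem_filter, Finset.mem_filter]
  rcases h hp.2 with h1 | h1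
  · exact Or.inl ⟨hp.1, h1⟩
  · exact Or.inr ⟨hp.1, h1⟩

/-- double counting of translates, general form -/
theorem shift_sum (A V : Finset (ℕ × ℕ)) (S : Set (AddCircle (1 : ℝ))) (x : AddCircle (1 : ℝ)) :
    ∑ v ∈ V, cnt A S (sp v x) = ∑ p ∈ A, cnt V S (sp p x) := by
  classical
  have h1 : ∀ (B : Finset (ℕ × ℕ)) (y : AddCircle (1 : ℝ)),
      cnt B S y = ∑ p ∈ B, if sp p y ∈ S then 1 else 0 := fun B y => by
    unfold cnt; rw [Finset.card_filter]
  simp only [h1]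
  rw [Finset.sum_comm]
  refine Finset.sum_congr rfl fun p _ => Finset.sum_congr rfl fun v _ => ?_
  rw [← sp_add, ← sp_add, add_comm]

/-- the inner box -/
def ibx (m n : ℕ) : Finset (ℕ × ℕ) := Finset.Ico m (n - m) ×ˢ Finset.Ico m (n - m)

theorem mem_ibx {m n : ℕ} {p : ℕ × ℕ} : p ∈ ibx m n ↔
    (m ≤ p.1 ∧ p.1 < n - m) ∧ (m ≤ p.2 ∧ p.2 < n - m) := by
  simp [ibx]

theorem shift_lower (m n : ℕ) (p : ℕ × ℕ) (hp : p.1 < m ∧ p.2 < m) (S : Set (AddCircle (1 : ℝ)))
    (x : AddCircle (1 : ℝ)) : cnt (ibx m n) S x ≤ cnt (bx (n - m)) S (sp p x) := by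
  classical
  unfold cnt
  refine Finset.card_le_card_of_injOn (fun u => (u.1 - p.1, u.2 - p.2)) ?_ ?_
  · intro u hu
    simp only [Finset.coe_filter, mem_ibx, Set.mem_ofPred_eq, mem_bx] at hu ⊢
    obtain ⟨⟨⟨h1, h2⟩, h3, h4⟩, h5⟩ := hu
    refine ⟨⟨by omega, by omega⟩, ?_⟩
    rw [← sp_add]
    have e : ((u.1 - p.1, u.2 - p.2) : ℕ × ℕ) + p = u := by
      ext
      · simp only [Prod.fst_add]; omega
      · simp only [Prod.snd_add]; omega
    rwa [e]
  · intro u hu w hw h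
    simp only [Finset.coe_filter, mem_ibx, Set.mem_ofPred_eq] at hu hw
    simp only [Prod.mk.injEq] at h
    ext
    · omega
    · omega

theorem shift_upper (m n : ℕ) (p : ℕ × ℕ) (hp : p.1 < m ∧ p.2 < m) (S : Set (AddCircle (1 : ℝ)))
    (x : AddCircle (1 : ℝ)) : cnt (bx (n - m)) S (sp p x) ≤ cnt (bx n) S x := by
  classical
  unfold cnt
  refine Finset.card_le_card_of_injOn (fun u => u + p) ?_ ?_
  · intro u hu
    simp only [Finset.coe_filter, Set.mem_ofPred_eq, mem_bx, Prod.fst_add, Prod.snd_add] at hu ⊢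
    obtain ⟨⟨h1, h2⟩, h5⟩ := hu
    refine ⟨⟨by omega, by omega⟩, ?_⟩
    rwa [sp_add]
  · intro u _ w _ h
    exact add_right_cancel h

theorem ibx_card (m n : ℕ) : n * n ≤ (ibx m n).card + 4 * m * n := by
  have h : (ibx m n).card = (n - m - m) * (n - m - m) := by
    simp [ibx]
  rw [h]
  by_cases h2 : 2 * m ≤ n
  · obtain ⟨k, rfl⟩ := Nat.exists_eq_add_of_le h2
    have e : 2 * m + k - m - m = k := by omega
    rw [e]
    nlinarith
  · have : n ≤ 4 * m := by omega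
    nlinarith [Nat.mul_le_mul_right n this]

theorem ibx_sub (m n : ℕ) : ibx m n ⊆ bx n := by
  intro p hp
  rw [mem_ibx] at hp
  rw [mem_bx]
  omega

theorem cnt_bx_le (m n : ℕ) (S : Set (AddCircle (1 : ℝ))) (x : AddCircle (1 : ℝ)) :
    cnt (bx n) S x ≤ cnt (ibx m n) S x + 4 * m * n := by
  classical
  have h1 : cnt (bx n) S x ≤ cnt (ibx m n) S x + (bx n \ ibx m n).card := by
    unfold cnt
    refine (Finset.card_le_card ?_).trans (Finset.card_union_le _ _)
    intro p hp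
    rw [Finset.mem_filter] at hp
    rw [Finset.mem_union, Finset.mem_filter, Finset.mem_sdiff]
    by_cases h : p ∈ ibx m n
    · exact Or.inl ⟨h, hp.2⟩
    · exact Or.inr ⟨hp.1, h⟩
  have h2 : (bx n \ ibx m n).card = n * n - (ibx m n).card := by
    rw [Finset.card_sdiff_of_subset (ibx_sub m n), card_bx]
  have h3 := ibx_card m n
  omega

/-- one dyadic range, in a box -/
theorem box_step (κ K L : ℝ) (hκ : 0 < κ) (hκ1 : κ ≤ 1 / 64) (hK : 1 ≤ K)
    (hL : 3 * (K + 2) ≤ L) :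
    ∃ g0 : ℝ, 256 ≤ g0 ∧ ∀ g ≥ g0, ∀ (y : AddCircle (1 : ℝ)) (n : ℕ),
      (cnt (bx n) (shell g) y : ℝ) ≤ 4 * (16 / L + 8 / K) * (cnt (bx n) (outs (κ * g)) y : ℝ) +
        8 * L * g * n := by
  obtain ⟨g0, hg0, h⟩ := pw_circle κ K L hκ hκ1 hK hL
  refine ⟨g0, hg0, fun g hg y n => ?_⟩
  have hg1 : 256 ≤ g := hg0.trans hg
  have hL9 : 9 ≤ L := by linarith
  have hLg : 9 * 256 ≤ L * g := mul_le_mul hL9 hg1 (by norm_num) (by linarith)
  have hcpos : 0 ≤ 16 / L + 8 / K := by positivity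
  set c : ℝ := 16 / L + 8 / K with hc
  obtain ⟨hc1, hc2⟩ := win_card K L g hK hL hg1
  set W := KL_T (L * g - (K + 2) * g) with hW
  set V := KL_T (L * g) with hV
  have h2 : 0 < Real.log 2 := Real.log_pos (by norm_num)
  have h2' : (0.69 : ℝ) < Real.log 2 := by
    have := Real.log_two_gt_d9
    linarith
  have h23 : Real.log 2 ≤ Real.log 3 := Real.log_le_log (by norm_num) (by norm_num)
  set m : ℕ := ⌈L * g / Real.log 2⌉₊ with hm
  have hVm : ∀ p ∈ V, p.1 < m ∧ p.2 < m := by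
    intro p hp
    rw [hV, KL_mem_T] at hp
    unfold LL at hp
    have hp1 : (0 : ℝ) ≤ p.1 := Nat.cast_nonneg _
    have hp2 : (0 : ℝ) ≤ p.2 := Nat.cast_nonneg _
    have hmle : L * g / Real.log 2 ≤ m := Nat.le_ceil _
    have a1 : (0 : ℝ) ≤ p.1 * Real.log 2 := by positivity
    have a2 : (p.2 : ℝ) * Real.log 2 ≤ p.2 * Real.log 3 := mul_le_mul_of_nonneg_left h23 hp2
    have a3 : (0 : ℝ) ≤ p.2 * Real.log 2 := by positivity
    constructor
    · have : (p.1 : ℝ) < L * g / Real.log 2 := by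
        rw [lt_div_iff₀ h2]
        linarith
      exact_mod_cast this.trans_le hmle
    · have : (p.2 : ℝ) < L * g / Real.log 2 := by
        rw [lt_div_iff₀ h2]
        linarith
      exact_mod_cast this.trans_le hmle
  have hWV : W ⊆ V := by
    intro p hp
    rw [hW, KL_mem_T] at hp
    rw [hV, KL_mem_T]
    have : 0 ≤ (K + 2) * g := by positivity
    linarith
  have hmle : (m : ℝ) ≤ 2 * (L * g) := by
    have h3 : (m : ℝ) < L * g / Real.log 2 + 1 := Nat.ceil_lt_add_one (by positivity)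
    have h4 : L * g / Real.log 2 ≤ L * g / 0.69 :=
      div_le_div_of_nonneg_left (by positivity) (by norm_num) h2'.le
    have h5 : L * g / 0.69 ≤ 1.5 * (L * g) := by
      rw [div_le_iff₀ (by norm_num)]
      nlinarith
    linarith
  -- the pointwise inequality at `s_v y`
  have hpt : ∀ z : AddCircle (1 : ℝ), (cnt W (shell g) z : ℝ) ≤ c * (cnt V (outs (κ * g)) z : ℝ) := by
    intro z
    have h5 := h g hg z
    rw [cnt_sum, cnt_sum] at h5
    rw [← ENNReal.ofReal_natCast, ← ENNReal.ofReal_natCast, ← ENNReal.ofReal_mul hcpos] at h5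
    exact (ENNReal.ofReal_le_ofReal_iff (by positivity)).1 h5
  have h6 : (W.card : ℝ) * (cnt (ibx m n) (shell g) y : ℝ) ≤
      ∑ v ∈ bx (n - m), (cnt W (shell g) (sp v y) : ℝ) := by
    have : W.card * cnt (ibx m n) (shell g) y ≤ ∑ v ∈ bx (n - m), cnt W (shell g) (sp v y) := by
      rw [shift_sum]
      have h20 := Finset.card_nsmul_le_sum W (fun p => cnt (bx (n - m)) (shell g) (sp p y))
        (cnt (ibx m n) (shell g) y) (fun p hp => shift_lower m n p (hVm p (hWV hp)) _ _)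
      rwa [smul_eq_mul] at h20
    exact_mod_cast this
  have h7 : ∑ v ∈ bx (n - m), (cnt V (outs (κ * g)) (sp v y) : ℝ) ≤
      (V.card : ℝ) * (cnt (bx n) (outs (κ * g)) y : ℝ) := by
    have : ∑ v ∈ bx (n - m), cnt V (outs (κ * g)) (sp v y) ≤
        V.card * cnt (bx n) (outs (κ * g)) y := by
      rw [shift_sum]
      have h20 := Finset.sum_le_card_nsmul V (fun p => cnt (bx (n - m)) (outs (κ * g)) (sp p y))
        (cnt (bx n) (outs (κ * g)) y) (fun p hp => shift_upper m n p (hVm p hp) _ _)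
      rwa [smul_eq_mul] at h20
    exact_mod_cast this
  have h8 : (W.card : ℝ) * (cnt (ibx m n) (shell g) y : ℝ) ≤
      (W.card : ℝ) * (4 * c * (cnt (bx n) (outs (κ * g)) y : ℝ)) := by
    calc (W.card : ℝ) * (cnt (ibx m n) (shell g) y : ℝ)
        ≤ ∑ v ∈ bx (n - m), (cnt W (shell g) (sp v y) : ℝ) := h6
      _ ≤ ∑ v ∈ bx (n - m), c * (cnt V (outs (κ * g)) (sp v y) : ℝ) :=
          Finset.sum_le_sum fun v _ => hpt _
      _ = c * ∑ v ∈ bx (n - m), (cnt V (outs (κ * g)) (sp v y) : ℝ) := by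
          rw [Finset.mul_sum]
      _ ≤ c * ((V.card : ℝ) * (cnt (bx n) (outs (κ * g)) y : ℝ)) :=
          mul_le_mul_of_nonneg_left h7 hcpos
      _ ≤ c * ((4 * (W.card : ℝ)) * (cnt (bx n) (outs (κ * g)) y : ℝ)) := by
          gcongr
      _ = (W.card : ℝ) * (4 * c * (cnt (bx n) (outs (κ * g)) y : ℝ)) := by ring
  have h9 := le_of_mul_le_mul_left h8 hc2
  have h10 : (cnt (bx n) (shell g) y : ℝ) ≤ (cnt (ibx m n) (shell g) y : ℝ) + 4 * m * n := by
    exact_mod_cast cnt_bx_le m n (shell g) y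
  have h11 : 4 * (m : ℝ) * n ≤ 8 * L * g * n := by
    have : (4 : ℝ) * m ≤ 8 * L * g := by linarith
    exact mul_le_mul_of_nonneg_right this (Nat.cast_nonneg _)
  linarith

/-- the points of depth at most `G` -/
def dp (G : ℝ) : Set (AddCircle (1 : ℝ)) := {x | 1 / 36 * Real.exp (-G) ≤ ‖x‖}

theorem dp_meas (G : ℝ) : MeasurableSet (dp G) :=
  (isClosed_le continuous_const continuous_norm).measurableSet

/-- iteration of the dyadic step -/
theorem box_iter (δ : ℝ) (hδ : 0 < δ) (hδ1 : δ ≤ 1 / 2) :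
    ∃ G L : ℝ, 256 ≤ G ∧ 1 ≤ L ∧ ∀ (y : AddCircle (1 : ℝ)) (n J : ℕ),
      (cnt (bx n) (dp (G * 2 ^ J)) y : ℝ) ≤ (1 + δ) ^ J * (cnt (bx n) (dp G) y : ℝ) +
        16 * L * n * (G * 2 ^ J) := by
  set K : ℝ := max 1 (64 / δ) with hK
  set L : ℝ := max (3 * (K + 2)) (128 / δ) with hL
  have hK1 : 1 ≤ K := le_max_left _ _
  have hK2 : 64 / δ ≤ K := le_max_right _ _
  have hL1 : 3 * (K + 2) ≤ L := le_max_left _ _
  have hL2 : 128 / δ ≤ L := le_max_right _ _
  have hK0 : 0 < K := by linarith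
  have hL0 : 0 < L := by linarith
  have hcδ : 4 * (16 / L + 8 / K) ≤ δ := by
    have h1 : 16 / L ≤ δ / 8 := by
      rw [div_le_iff₀ hL0]
      rw [div_le_iff₀ hδ] at hL2
      linarith
    have h2 : 8 / K ≤ δ / 8 := by
      rw [div_le_iff₀ hK0]
      rw [div_le_iff₀ hδ] at hK2
      linarith
    linarith
  obtain ⟨G, hG, h⟩ := box_step (1 / 64) K L (by norm_num) le_rfl hK1 hL1
  refine ⟨G, L, hG, by linarith, fun y n J => ?_⟩
  induction J with
  | zero =>
    simp only [pow_zero, one_mul, mul_one]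
    have : 0 ≤ 16 * L * n * G := by positivity
    linarith
  | succ J ih =>
    have h2J : (1 : ℝ) ≤ 2 ^ J := one_le_pow₀ (by norm_num)
    set g : ℝ := G * 2 ^ J with hg
    have hgG : G ≤ g := by
      rw [hg]
      nlinarith
    have hg0 : 0 < g := by linarith
    have hsub : dp (G * 2 ^ (J + 1)) ⊆ dp g ∪ shell g := by
      intro x hx
      by_cases hxg : x ∈ dp g
      · exact Or.inl hxg
      · refine Or.inr ⟨?_, not_le.1 hxg⟩
        have e : 2 * g = G * 2 ^ (J + 1) := by rw [hg]; ring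
        rw [e]
        exact hx
    have h3 : (cnt (bx n) (dp (G * 2 ^ (J + 1))) y : ℝ) ≤
        (cnt (bx n) (dp g) y : ℝ) + (cnt (bx n) (shell g) y : ℝ) := by
      exact_mod_cast cnt_union (bx n) _ _ _ hsub y
    have h4 := h g hgG y n
    have h5 : (cnt (bx n) (outs (1 / 64 * g)) y : ℝ) ≤ (cnt (bx n) (dp g) y : ℝ) := by
      have : outs (1 / 64 * g) ⊆ dp g := by
        intro x hx
        have hx' : 1 / 36 * Real.exp (-(1 / 64 * g)) < ‖x‖ := hx
        refine le_trans ?_ hx'.le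
        apply mul_le_mul_of_nonneg_left _ (by norm_num)
        apply Real.exp_le_exp.2
        linarith
      exact_mod_cast cnt_mono (Finset.Subset.refl _) this y
    have hn : (0 : ℝ) ≤ n := Nat.cast_nonneg _
    have h6 : 4 * (16 / L + 8 / K) * (cnt (bx n) (outs (1 / 64 * g)) y : ℝ) ≤
        δ * (cnt (bx n) (dp g) y : ℝ) :=
      mul_le_mul hcδ h5 (Nat.cast_nonneg _) hδ.le
    have h7 : (cnt (bx n) (dp (G * 2 ^ (J + 1))) y : ℝ) ≤
        (1 + δ) * (cnt (bx n) (dp g) y : ℝ) + 8 * L * g * n := by linarith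
    have h8 : (1 + δ) * (cnt (bx n) (dp g) y : ℝ) ≤
        (1 + δ) * ((1 + δ) ^ J * (cnt (bx n) (dp G) y : ℝ) + 16 * L * n * g) :=
      mul_le_mul_of_nonneg_left ih (by linarith)
    have h9 : (1 + δ) * (16 * L * n * g) + 8 * L * g * n ≤ 16 * L * n * (G * 2 ^ (J + 1)) := by
      have e : 16 * L * n * (G * 2 ^ (J + 1)) = 32 * (L * n * g) := by rw [hg]; ring
      rw [e]
      have h10 : 0 ≤ L * n * g := by positivity
      nlinarith
    have e2 : (1 + δ) * ((1 + δ) ^ J * (cnt (bx n) (dp G) y : ℝ) + 16 * L * n * g) =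
        (1 + δ) ^ (J + 1) * (cnt (bx n) (dp G) y : ℝ) + (1 + δ) * (16 * L * n * g) := by ring
    linarith

end Pool.Agent.CplxN
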