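import Pool.Agent.CplxN.Meas

/-! Complexity of `×2`, `×3`-invariant measures: approximate periods at all scales. -/

namespace Pool.Agent.CplxN

open Pool.Agent.SubT Pool.Agent.SlowV

open scoped BigOperators ENNReal

open MeasureTheory Set Filter Topology

theorem per_mult (N : ℕ) (T : ℝ) (w : AddCircle (1 : ℝ)) (h : w ∈ per N T) :
    ∃ m : ℕ, 0 < m ∧ (m : ℝ) ≤ 6 ^ N ∧ ‖m • w‖ < 1 / 36 * Real.exp (-T) := by
  obtain ⟨v, hv, v', hv', hne, hlt⟩ := h
  have hsz : ∀ v ∈ bx N, (2 ^ v.1 * 3 ^ v.2 : ℕ) ≤ 6 ^ N := by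
    intro v hv
    rw [mem_bx] at hv
    calc (2 ^ v.1 * 3 ^ v.2 : ℕ) ≤ 2 ^ N * 3 ^ N :=
          Nat.mul_le_mul (Nat.pow_le_pow_right (by norm_num) hv.1.le)
            (Nat.pow_le_pow_right (by norm_num) hv.2.le)
      _ = 6 ^ N := by rw [← mul_pow]; norm_num
  have hne' : (2 ^ v.1 * 3 ^ v.2 : ℕ) ≠ 2 ^ v'.1 * 3 ^ v'.2 := by
    intro h
    obtain ⟨h1, h2⟩ := DIM1_inj _ _ _ _ h
    exact hne (Prod.ext h1 h2)
  rcases lt_or_gt_of_ne hne' with h1 | h1
  · obtain ⟨k, hk⟩ := Nat.exists_eq_add_of_lt h1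
    refine ⟨k + 1, by omega, ?_, ?_⟩
    · have := hsz v' hv'
      have : k + 1 ≤ 6 ^ N := by omega
      exact_mod_cast this
    · have e : sp v w - sp v' w = -((k + 1) • w) := by
        unfold sp
        rw [hk, add_assoc, add_nsmul]
        abel
      rwa [e, norm_neg] at hlt
  · obtain ⟨k, hk⟩ := Nat.exists_eq_add_of_lt h1
    refine ⟨k + 1, by omega, ?_, ?_⟩
    · have := hsz v hv
      have : k + 1 ≤ 6 ^ N := by omega
      exact_mod_cast this
    · have e : sp v w - sp v' w = (k + 1) • w := by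
        unfold sp
        rw [hk, add_assoc, add_nsmul]
        abel
      rwa [e] at hlt

theorem chain (w : AddCircle (1 : ℝ)) (N : ℕ → ℕ) (T : ℕ → ℝ) (hT : Tendsto T atTop atTop)
    (h : ∀ᶠ j in atTop, w ∈ per (N j) (T j))
    (hN : ∀ᶠ j in atTop, (N (j + 1) : ℝ) * Real.log 6 ≤ T j) : ∃ m : ℕ, 0 < m ∧ m • w = 0 := by
  obtain ⟨j0, hj0⟩ := eventually_atTop.1 (h.and hN)
  have hm : ∀ j, j0 ≤ j → ∃ m : ℕ, 0 < m ∧ (m : ℝ) ≤ 6 ^ (N j) ∧
      ‖m • w‖ < 1 / 36 * Real.exp (-(T j)) := fun j hj => per_mult _ _ _ (hj0 j hj).1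
  choose! m hm0 hm1 hm2 using hm
  have hstep : ∀ j, j0 ≤ j → ‖m j • w‖ / m j ≤ ‖m (j + 1) • w‖ / m (j + 1) := by
    intro j hj
    have a0 : (0 : ℝ) < m j := by exact_mod_cast hm0 j hj
    have a1 : (0 : ℝ) < m (j + 1) := by exact_mod_cast hm0 (j + 1) (by omega)
    have h6 : (6 : ℝ) ^ (N (j + 1)) ≤ Real.exp (T j) := by
      have : (6 : ℝ) ^ (N (j + 1)) = Real.exp ((N (j + 1) : ℝ) * Real.log 6) := by
        rw [mul_comm, Real.exp_mul, Real.exp_log (by norm_num), Real.rpow_natCast]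
      rw [this]
      exact Real.exp_le_exp.2 (hj0 j hj).2
    have h7 : (m (j + 1) : ℝ) * ‖m j • w‖ ≤ 1 / 2 := by
      have h8 : (m (j + 1) : ℝ) * ‖m j • w‖ ≤ Real.exp (T j) * (1 / 36 * Real.exp (-(T j))) :=
        mul_le_mul ((hm1 (j + 1) (by omega)).trans h6) (hm2 j hj).le (norm_nonneg _)
          (Real.exp_pos _).le
      have h9 : Real.exp (T j) * (1 / 36 * Real.exp (-(T j))) = 1 / 36 := by
        calc Real.exp (T j) * (1 / 36 * Real.exp (-(T j))) =
            1 / 36 * (Real.exp (T j) * Real.exp (-(T j))) := by ring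
          _ = 1 / 36 := by rw [← Real.exp_add]; simp
      linarith
    have h10 := norm_nsmul_eq (m (j + 1)) (m j • w) h7
    have h11 : ‖m (j + 1) • (m j • w)‖ ≤ m j * ‖m (j + 1) • w‖ := by
      rw [smul_smul, mul_comm, ← smul_smul]
      exact norm_nsmul_le
    rw [div_le_div_iff₀ a0 a1]
    linarith
  have hmono : ∀ k, ‖m j0 • w‖ / m j0 ≤ ‖m (j0 + k) • w‖ / m (j0 + k) := by
    intro k
    induction k with
    | zero => simp
    | succ k ih => exact ih.trans (hstep (j0 + k) (by omega))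
  have hlim : Tendsto (fun k => Real.exp (-(T (j0 + k)))) atTop (𝓝 0) := by
    have h12 : Tendsto (fun k => T (j0 + k)) atTop atTop :=
      hT.comp (tendsto_add_atTop_iff_nat j0 |>.2 tendsto_id |>.congr fun k => by simp [add_comm])
    exact Real.tendsto_exp_neg_atTop_nhds_zero.comp h12
  have hle : ‖m j0 • w‖ / m j0 ≤ 0 := by
    refine ge_of_tendsto' hlim fun k => (hmono k).trans ?_
    have a1 : (1 : ℝ) ≤ m (j0 + k) := by exact_mod_cast hm0 (j0 + k) (by omega)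
    have h13 := hm2 (j0 + k) (by omega)
    have h14 : ‖m (j0 + k) • w‖ / m (j0 + k) ≤ ‖m (j0 + k) • w‖ := div_le_self (norm_nonneg _) a1
    have h15 := Real.exp_pos (-(T (j0 + k)))
    linarith
  refine ⟨m j0, hm0 j0 le_rfl, ?_⟩
  have a0 : (0 : ℝ) < m j0 := by exact_mod_cast hm0 j0 le_rfl
  rw [div_le_iff₀ a0, zero_mul] at hle
  exact norm_eq_zero.1 (le_antisymm hle (norm_nonneg _))

/-- an atomless measure does not charge the points of finite order -/
theorem torsion_null (ν : Measure (AddCircle (1 : ℝ))) (hat : ∀ x, ν {x} = 0) :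
    ν {w | ∃ m : ℕ, 0 < m ∧ m • w = 0} = 0 := by
  have hc : {w : AddCircle (1 : ℝ) | ∃ m : ℕ, 0 < m ∧ m • w = 0}.Countable := by
    have e : {w : AddCircle (1 : ℝ) | ∃ m : ℕ, 0 < m ∧ m • w = 0} =
        ⋃ m : ℕ, {w | 0 < m ∧ m • w = 0} := by
      ext w; simp
    rw [e]
    refine countable_iUnion fun m => ?_
    by_cases hm : 0 < m
    · refine Set.Finite.countable ?_
      refine (AddCircle.finite_torsion (1 : ℝ) hm).subset ?_
      intro w hw
      exact hw.2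
    · refine Set.Countable.mono ?_ Set.countable_empty
      intro w hw
      exact absurd hw.1 hm
  rw [← Set.biUnion_of_singleton {w : AddCircle (1 : ℝ) | ∃ m : ℕ, 0 < m ∧ m • w = 0}]
  exact (measure_biUnion_null_iff hc).2 fun x _ => hat x

/-- Borel-Cantelli -/
theorem no_seq (ν : Measure (AddCircle (1 : ℝ))) [IsProbabilityMeasure ν] (hat : ∀ x, ν {x} = 0)
    (N : ℕ → ℕ) (T : ℕ → ℝ) (hT : Tendsto T atTop atTop)
    (hN : ∀ᶠ j in atTop, (N (j + 1) : ℝ) * Real.log 6 ≤ T j) (F : ℕ → ℝ) (hF : Summable F) : ¬ ∀ᶠ j in atTop, ν (per (N j) (T j))ᶜ ≤ ENNReal.ofReal (F j) := by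
  intro h
  obtain ⟨j0, hj0⟩ := eventually_atTop.1 h
  have hsum : ∑' j, ν ((fun j => (per (N (j0 + j)) (T (j0 + j)))ᶜ) j) ≠ ⊤ := by
    have h1 : Summable (fun j => F (j0 + j)) := by
      simpa [add_comm] using (summable_nat_add_iff j0).2 hF
    refine ne_top_of_le_ne_top ?_ (ENNReal.tsum_le_tsum fun j => hj0 (j0 + j) (by omega))
    exact h1.tsum_ofReal_ne_top
  have hae := ae_eventually_notMem hsum
  have hae2 : ∀ᵐ w ∂ν, w ∈ {w : AddCircle (1 : ℝ) | ∃ m : ℕ, 0 < m ∧ m • w = 0} := by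
    filter_upwards [hae] with w hw
    refine chain w N T hT ?_ hN
    obtain ⟨j1, hj1⟩ := eventually_atTop.1 hw
    refine eventually_atTop.2 ⟨j0 + j1, fun j hj => ?_⟩
    have := hj1 (j - j0) (by omega)
    have e : j0 + (j - j0) = j := by omega
    rw [e] at this
    exact not_not.1 this
  have h1 : ∀ᵐ w ∂ν, False := by
    filter_upwards [hae2, measure_eq_zero_iff_ae_notMem.1 (torsion_null ν hat)] with w h1 h2
    exact h2 h1
  obtain ⟨w, hw⟩ := h1.exists
  exact hw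

end Pool.Agent.CplxN
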