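import Pool.Agent.CplxN.Chain

/-! Complexity of `×2`, `×3`-invariant measures: the general form. -/

namespace Pool.Agent.CplxN

open Pool.Agent.SubT Pool.Agent.SlowV

open scoped BigOperators ENNReal

open MeasureTheory Set Filter Topology

/-- `log (2 ^ j)` -/
noncomputable def ell (j : ℕ) : ℝ := j * Real.log 2

theorem log_two_pow (j : ℕ) : Real.log ((2 ^ j : ℕ) : ℝ) = ell j := by
  push_cast
  rw [Real.log_pow, ell]

theorem ell_tendsto : Tendsto ell atTop atTop := by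
  have h : 0 < Real.log 2 := Real.log_pos (by norm_num)
  exact (tendsto_natCast_atTop_atTop (R := ℝ)).atTop_mul_const h

/-- `2 ^ j / (log 2 ^ j) ^ a → ∞` -/
theorem quo_tendsto (a : ℝ) : Tendsto (fun j : ℕ => (2 : ℝ) ^ j / ell j ^ a) atTop atTop := by
  have h1 : Tendsto (fun x : ℝ => Real.exp x / x ^ a) atTop atTop := tendsto_exp_div_rpow_atTop a
  refine (h1.comp ell_tendsto).congr fun j => ?_
  simp only [Function.comp]
  congr 1
  rw [ell, mul_comm, Real.exp_mul, Real.exp_log (by norm_num), Real.rpow_natCast]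

/-- the scales of depth -/
theorem exists_J (a G : ℝ) (hG : 0 < G) : ∃ J : ℕ → ℕ, ∀ᶠ j in atTop,
    (2 : ℝ) ^ j / ell j ^ a / 2 < G * 2 ^ (J j) ∧ G * 2 ^ (J j) ≤ (2 : ℝ) ^ j / ell j ^ a := by
  have h1 : ∀ᶠ j in atTop, G ≤ (2 : ℝ) ^ j / ell j ^ a := (quo_tendsto a).eventually_ge_atTop G
  have h2 : ∀ j : ℕ, G ≤ (2 : ℝ) ^ j / ell j ^ a → ∃ J : ℕ,
      (2 : ℝ) ^ j / ell j ^ a / 2 < G * 2 ^ J ∧ G * 2 ^ J ≤ (2 : ℝ) ^ j / ell j ^ a := by
    intro j hj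
    obtain ⟨J, hJ1, hJ2⟩ := exists_nat_pow_near (x := (2 : ℝ) ^ j / ell j ^ a / G) (y := 2)
      ((one_le_div hG).2 hj) (by norm_num)
    refine ⟨J, ?_, ?_⟩
    · rw [div_lt_iff₀ hG, pow_succ] at hJ2
      rw [div_lt_iff₀ (by norm_num)]
      linarith
    · rw [le_div_iff₀ hG] at hJ1
      linarith
  choose! J hJ using h2
  exact ⟨J, h1.mono fun j hj => hJ j hj⟩

section system

variable {Ω : Type*} [MeasurableSpace Ω]

/-- the general form: covers by few sets at a sequence of scales -/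
theorem core (η : ℝ) (hη : 0 < η) (hη1 : η ≤ 1) :
    ∃ G L C : ℝ, 256 ≤ G ∧ 1 ≤ L ∧ 1 ≤ C ∧
    ∀ {Ω : Type*} [MeasurableSpace Ω] (P : Measure Ω) [IsProbabilityMeasure P] {S R : Ω → Ω}
    (_ : MeasurePreserving S P P) (_ : MeasurePreserving R P P) (φ : Ω → AddCircle (1 : ℝ))
    (_ : Measurable φ) (_ : ∀ᵐ ω ∂P, φ (S ω) = (2 : ℕ) • φ ω)
    (_ : ∀ᵐ ω ∂P, φ (R ω) = (3 : ℕ) • φ ω) (_ : ∀ x, (P.map φ) {x} = 0)
    (n N J K : ℕ → ℕ) (β : ℕ → ℝ) (B : ∀ j, Fin (K j) → Set Ω)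
    (_ : ∀ᶠ j in atTop, 1 ≤ n j ∧ G * 2 ^ (J j) ≤ n j ∧ 2 * K j < N j * N j ∧
      (∀ i, ∀ x ∈ B j i, ∀ y ∈ B j i,
        (cnt (bx (n j)) far (φ x - φ y) : ℝ) ≤ (n j : ℝ) ^ (2 - η)) ∧
      P (⋃ i, B j i)ᶜ ≤ ENNReal.ofReal (β j) ∧ 0 ≤ β j ∧
      (N (j + 1) : ℝ) * Real.log 6 ≤ G * 2 ^ (J j))
    (_ : Tendsto (fun j => G * 2 ^ (J j)) atTop atTop)
    (_ : Summable (fun j => C * (n j : ℝ) ^ (-(η / 2)) + 16 * L * (G * 2 ^ (J j) / n j) +
      2 * β j)), False := by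
  obtain ⟨G, L, C, hG, hL, hC, hdet⟩ := det η hη hη1
  refine ⟨G, L, C, hG, hL, hC, ?_⟩
  intro Ω _ P _ S R hS hR φ hφ h2 h3 hat n N J K β B hev hT hsum
  have hprob : IsProbabilityMeasure (P.map φ) := Measure.isProbabilityMeasure_map hφ.aemeasurable
  refine no_seq (P.map φ) hat N (fun j => G * 2 ^ (J j)) hT (hev.mono fun j h => h.2.2.2.2.2.2) _
    hsum ?_
  filter_upwards [hev] with j hj
  obtain ⟨hn1, hGn, hKN, hB, hP, hβ, -⟩ := hj
  have hn0 : (0 : ℝ) < n j := by exact_mod_cast hn1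
  set f : ℝ := C * (n j : ℝ) ^ (-(η / 2)) + 16 * L * (G * 2 ^ (J j) / n j) with hf
  have hf0 : 0 ≤ f := by
    have h10 := Real.rpow_pos_of_pos hn0 (-(η / 2))
    have : 0 < G := by linarith
    simp only [hf]
    positivity
  have hdet' : ∀ y : AddCircle (1 : ℝ), (cnt (bx (n j)) far y : ℝ) ≤ (n j : ℝ) ^ (2 - η) →
      (cnt (bx (n j)) (dp (G * 2 ^ (J j))) y : ℝ) ≤ f * ((n j : ℝ) * n j) := by
    intro y hy
    refine (hdet y (n j) (J j) hn1 hGn hy).trans (le_of_eq ?_)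
    have e : (n j : ℝ) ^ (2 - η / 2) = (n j : ℝ) ^ (-(η / 2)) * ((n j : ℝ) * n j) := by
      have h14 : (n j : ℝ) * n j = (n j : ℝ) ^ (2 : ℝ) := by
        rw [Real.rpow_two]; ring
      rw [h14, ← Real.rpow_add hn0]
      congr 1
      ring
    rw [e, hf]
    field_simp
  have hmain := measD P hS hR φ hφ h2 h3 (n j) (N j) (K j) hn1 (B j) hKN _ hB (G * 2 ^ (J j)) f
    hf0 hdet'
  refine hmain.trans ?_
  have h10 : ENNReal.ofReal (f + 2 * β j) = ENNReal.ofReal f + 2 * ENNReal.ofReal (β j) := by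
    rw [ENNReal.ofReal_add hf0 (by positivity), ENNReal.ofReal_mul (by norm_num)]
    norm_num
  rw [h10]
  gcongr

end system

end Pool.Agent.CplxN
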