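import Pool.Agent.CplxN.Start

/-! Complexity of `×2`, `×3`-invariant measures: the deterministic estimate. -/

namespace Pool.Agent.CplxN

open Pool.Agent.SubT Pool.Agent.SlowV

open scoped BigOperators ENNReal

open MeasureTheory Set

theorem det (η : ℝ) (hη : 0 < η) (hη1 : η ≤ 1) :
    ∃ G L C : ℝ, 256 ≤ G ∧ 1 ≤ L ∧ 1 ≤ C ∧ ∀ (y : AddCircle (1 : ℝ)) (n J : ℕ), 1 ≤ n →
      G * 2 ^ J ≤ n → (cnt (bx n) far y : ℝ) ≤ (n : ℝ) ^ (2 - η) →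
      (cnt (bx n) (dp (G * 2 ^ J)) y : ℝ) ≤ C * (n : ℝ) ^ (2 - η / 2) +
        16 * L * n * (G * 2 ^ J) := by
  have h2η : (1 : ℝ) < (2 : ℝ) ^ (η / 2) := Real.one_lt_rpow (by norm_num) (by linarith)
  set δ : ℝ := min (1 / 2) ((2 : ℝ) ^ (η / 2) - 1) with hδ
  have hδ0 : 0 < δ := lt_min (by norm_num) (by linarith)
  have hδ1 : δ ≤ 1 / 2 := min_le_left _ _
  have hδ2 : 1 + δ ≤ (2 : ℝ) ^ (η / 2) := by
    have := min_le_right (1 / 2 : ℝ) ((2 : ℝ) ^ (η / 2) - 1)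
    rw [← hδ] at this
    linarith
  obtain ⟨G, L, hG, hL, h⟩ := box_iter δ hδ0 hδ1
  obtain ⟨k, hk⟩ : ∃ k : ℕ, 1 / 4 ≤ (2 : ℝ) ^ k * (1 / 36 * Real.exp (-G)) := by
    obtain ⟨k, hk⟩ := pow_unbounded_of_one_lt (9 * Real.exp G) (by norm_num : (1 : ℝ) < 2)
    refine ⟨k, ?_⟩
    have h1 : 0 < Real.exp (-G) := Real.exp_pos _
    have h2 : Real.exp G * Real.exp (-G) = 1 := by rw [← Real.exp_add]; simp
    have h3 : 9 * Real.exp G * (1 / 36 * Real.exp (-G)) = 1 / 4 := by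
      calc 9 * Real.exp G * (1 / 36 * Real.exp (-G)) = 1 / 4 * (Real.exp G * Real.exp (-G)) := by ring
        _ = 1 / 4 := by rw [h2]; ring
    rw [← h3]
    exact mul_le_mul_of_nonneg_right hk.le (by positivity)
  refine ⟨G, L, ((k : ℝ) + 1) ^ 2, hG, hL, ?_, fun y n J hn hGJ hfar => ?_⟩
  · have : (0 : ℝ) ≤ k := Nat.cast_nonneg _
    nlinarith
  have hn0 : (1 : ℝ) ≤ n := by exact_mod_cast hn
  have hnpos : (0 : ℝ) < n := by linarith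
  have h1 := h y n J
  have h2 : (cnt (bx n) (dp G) y : ℝ) ≤ (k + 1) * (cnt (bx n) far y + k * n) := by
    exact_mod_cast start G k hk y n
  have h3 : (n : ℝ) ≤ (n : ℝ) ^ (2 - η) := by
    conv_lhs => rw [← Real.rpow_one (n : ℝ)]
    exact Real.rpow_le_rpow_of_exponent_le hn0 (by linarith)
  have hk0 : (0 : ℝ) ≤ k := Nat.cast_nonneg _
  have hp : 0 < (n : ℝ) ^ (2 - η) := Real.rpow_pos_of_pos hnpos _
  have h4 : (cnt (bx n) (dp G) y : ℝ) ≤ (k + 1) ^ 2 * (n : ℝ) ^ (2 - η) := by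
    refine h2.trans ?_
    have h5 : (cnt (bx n) far y : ℝ) + k * n ≤ (k + 1) * (n : ℝ) ^ (2 - η) := by
      have := mul_le_mul_of_nonneg_left h3 hk0
      linarith
    calc ((k : ℝ) + 1) * (cnt (bx n) far y + k * n) ≤ (k + 1) * ((k + 1) * (n : ℝ) ^ (2 - η)) :=
          mul_le_mul_of_nonneg_left h5 (by positivity)
      _ = (k + 1) ^ 2 * (n : ℝ) ^ (2 - η) := by ring
  have h6 : (1 + δ) ^ J ≤ (n : ℝ) ^ (η / 2) := by
    have h7 : (1 + δ) ^ J ≤ ((2 : ℝ) ^ (η / 2)) ^ J := pow_le_pow_left₀ (by linarith) hδ2 J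
    have h8 : ((2 : ℝ) ^ (η / 2)) ^ J = ((2 : ℝ) ^ J) ^ (η / 2) := by
      rw [← Real.rpow_natCast, ← Real.rpow_natCast, ← Real.rpow_mul (by norm_num),
        ← Real.rpow_mul (by norm_num), mul_comm]
    have h9 : (2 : ℝ) ^ J ≤ n := by
      have : (0 : ℝ) < 2 ^ J := by positivity
      nlinarith
    rw [h8] at h7
    exact h7.trans (Real.rpow_le_rpow (by positivity) h9 (by linarith))
  have h10 : (1 + δ) ^ J * (cnt (bx n) (dp G) y : ℝ) ≤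
      (n : ℝ) ^ (η / 2) * ((k + 1) ^ 2 * (n : ℝ) ^ (2 - η)) :=
    mul_le_mul h6 h4 (Nat.cast_nonneg _) (by positivity)
  have h11 : (n : ℝ) ^ (η / 2) * ((k + 1) ^ 2 * (n : ℝ) ^ (2 - η)) =
      (k + 1) ^ 2 * (n : ℝ) ^ (2 - η / 2) := by
    have : (n : ℝ) ^ (2 - η / 2) = (n : ℝ) ^ (η / 2) * (n : ℝ) ^ (2 - η) := by
      rw [← Real.rpow_add hnpos]
      congr 1
      ring
    rw [this]
    ring
  linarith

end Pool.Agent.CplxN
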