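import Pool.Agent.CplxN.Win

/-! Complexity of `×2`, `×3`-invariant measures: all large scales, if almost all points are not
very well approximable. -/

namespace Pool.Agent.CplxN

open Pool.Agent.SubT Pool.Agent.SlowV

open scoped BigOperators ENNReal

open MeasureTheory Set Filter Topology

section system

variable {Ω : Type*} [MeasurableSpace Ω]

omit [MeasurableSpace Ω] in
/-- many points in the union of few sets: two are in the same set -/
theorem two_same' (S R : Ω → Ω) (N K : ℕ) (B : Fin K → Set Ω) (V : Set Ω)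
    (hV : (⋃ i, B i)ᶜ ⊆ V) (ω : Ω)
    (hz : vis S R (bx N) V ω + K < N * N) :
    ∃ v ∈ bx N, ∃ v' ∈ bx N, v ≠ v' ∧ ∃ i, orb S R v ω ∈ B i ∧ orb S R v' ω ∈ B i := by
  classical
  set A := (bx N).filter (fun p => orb S R p ω ∉ V) with hA
  have h1 : A.card + vis S R (bx N) V ω = N * N := by
    rw [hA, ← card_bx N]
    unfold vis
    rw [add_comm]
    exact Finset.card_filter_add_card_filter_not (s := bx N) (fun p => orb S R p ω ∈ V)
  have h2 : K < A.card := by omega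
  have h3 : ∀ p ∈ A, ∃ i, orb S R p ω ∈ B i := by
    intro p hp
    rw [hA, Finset.mem_filter] at hp
    have : orb S R p ω ∈ ⋃ i, B i := by
      by_contra hcon
      exact hp.2 (hV hcon)
    simpa using this
  have hne : Nonempty (Fin K) := by
    obtain ⟨p, hp⟩ : A.Nonempty := Finset.card_pos.1 (by omega)
    obtain ⟨i, -⟩ := h3 p hp
    exact ⟨i⟩
  choose! f hf using h3
  have h4 : (Finset.univ : Finset (Fin K)).card < A.card := by simpa using h2
  obtain ⟨v, hv, v', hv', hne, heq⟩ := Finset.exists_ne_map_eq_of_card_lt_of_maps_to h4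
    (f := f) (fun p _ => Finset.mem_univ _)
  refine ⟨v, (Finset.mem_filter.1 hv).1, v', (Finset.mem_filter.1 hv').1, hne, f v, hf v hv, ?_⟩
  rw [heq]
  exact hf v' hv'

/-- covers of a set of measure `κ` -/
theorem measE (P : Measure Ω) [IsProbabilityMeasure P] {S R : Ω → Ω}
    (hS : MeasurePreserving S P P) (hR : MeasurePreserving R P P) (φ : Ω → AddCircle (1 : ℝ))
    (hφ : Measurable φ) (h2 : ∀ᵐ ω ∂P, φ (S ω) = (2 : ℕ) • φ ω)
    (h3 : ∀ᵐ ω ∂P, φ (R ω) = (3 : ℕ) • φ ω) (n N K : ℕ) (hn : 1 ≤ n) (hN : 1 ≤ N)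
    (B : Fin K → Set Ω) (κ ε : ℝ) (hε : 0 < ε) (hε1 : ε < 1) (hεκ : ε ≤ κ) (hκ1 : κ ≤ 1)
    (hK : (K : ℝ) ≤ ε * (N * N))
    (h : ℝ) (hB : ∀ i, ∀ x ∈ B i, ∀ y ∈ B i, (cnt (bx n) far (φ x - φ y) : ℝ) ≤ h)
    (hP : P (⋃ i, B i)ᶜ ≤ ENNReal.ofReal (1 - κ)) (T f : ℝ) (hf : 0 ≤ f)
    (hfκ : f ≤ κ - ε)
    (hdet : ∀ y : AddCircle (1 : ℝ), (cnt (bx n) far y : ℝ) ≤ h →
      (cnt (bx n) (dp T) y : ℝ) ≤ f * ((n : ℝ) * n)) :
    ENNReal.ofReal (κ - ε - f) ≤ (P.map φ) (per N T) := by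
  classical
  have hν2 := map_mp P hS φ hφ 2 h2
  have hν3 := map_mp P hR φ hφ 3 h3
  set V := toMeasurable P (⋃ i, B i)ᶜ with hV
  have hVm : MeasurableSet V := measurableSet_toMeasurable _ _
  have hVs : (⋃ i, B i)ᶜ ⊆ V := subset_toMeasurable _ _
  have hVν : P V = P (⋃ i, B i)ᶜ := measure_toMeasurable _
  set Z : Set Ω := {z | (N * N : ℝ≥0∞) ≤ (vis S R (bx N) V z : ℝ≥0∞) + K} with hZ
  have hvm := vis_measurable hS.measurable hR.measurable (bx N) V hVm
  have hZm : MeasurableSet Z := measurableSet_le measurable_const (hvm.add_const _)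
  have hNpos : (0 : ℝ) < N := by exact_mod_cast hN
  have hZν : P Z ≤ ENNReal.ofReal (1 - κ + ε) := by
    set q : ℝ := (1 - ε) * ((N : ℝ) * N) with hq
    have hq0 : 0 < q := mul_pos (by linarith) (by positivity)
    have hsub : Z ⊆ {z | ENNReal.ofReal q ≤ (vis S R (bx N) V z : ℝ≥0∞)} := by
      intro z hz
      have hz' : (N * N : ℝ≥0∞) ≤ (vis S R (bx N) V z : ℝ≥0∞) + K := hz
      have hz2 : N * N ≤ vis S R (bx N) V z + K := by exact_mod_cast hz'
      have hz3 : (N : ℝ) * N ≤ vis S R (bx N) V z + K := by exact_mod_cast hz2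
      change ENNReal.ofReal q ≤ (vis S R (bx N) V z : ℝ≥0∞)
      rw [← ENNReal.ofReal_natCast]
      apply ENNReal.ofReal_le_ofReal
      rw [hq]
      linarith
    have h4 := vis_markov P hS hR N V hVm (ENNReal.ofReal q)
    have h5 : ENNReal.ofReal q * P Z ≤ ENNReal.ofReal q * ENNReal.ofReal (1 - κ + ε) := by
      calc ENNReal.ofReal q * P Z ≤
          ENNReal.ofReal q * P {z | ENNReal.ofReal q ≤ (vis S R (bx N) V z : ℝ≥0∞)} := by gcongr
        _ ≤ (N * N : ℝ≥0∞) * P V := h4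
        _ ≤ (N * N : ℝ≥0∞) * ENNReal.ofReal (1 - κ) := by rw [hVν]; gcongr
        _ = ENNReal.ofReal ((N : ℝ) * N * (1 - κ)) := by
            rw [ENNReal.ofReal_mul (by positivity), ENNReal.ofReal_mul (Nat.cast_nonneg _),
              ENNReal.ofReal_natCast]
        _ ≤ ENNReal.ofReal (q * (1 - κ + ε)) := by
            apply ENNReal.ofReal_le_ofReal
            rw [hq]
            have h6 : 1 - κ ≤ (1 - ε) * (1 - κ + ε) := by nlinarith
            have h7 := mul_le_mul_of_nonneg_left h6 (by positivity : (0 : ℝ) ≤ (N : ℝ) * N)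
            linarith
        _ = ENNReal.ofReal q * ENNReal.ofReal (1 - κ + ε) := ENNReal.ofReal_mul hq0.le
    exact (ENNReal.mul_le_mul_iff_right (ENNReal.ofReal_pos.2 hq0).ne' ENNReal.ofReal_ne_top).1 h5
  have hpt : ∀ᵐ ω ∂P, (cnt (bx n) (per N T)ᶜ (φ ω) : ℝ≥0∞) ≤
      ENNReal.ofReal f * (n * n : ℝ≥0∞) + Z.indicator (fun _ => (n * n : ℝ≥0∞)) ω := by
    filter_upwards [orb_ae P hS hR φ h2 h3] with ω hω
    by_cases hz : ω ∈ Z
    · rw [Set.indicator_of_mem hz]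
      refine le_add_left ?_
      have := cnt_le_card (bx n) (per N T)ᶜ (φ ω)
      rw [card_bx] at this
      exact_mod_cast this
    · refine le_add_right ?_
      have hz' : vis S R (bx N) V ω + K < N * N := by
        rw [hZ, Set.mem_ofPred_eq, not_le] at hz
        exact_mod_cast hz
      obtain ⟨v, hv, v', hv', hne, i, hvi, hvi'⟩ := two_same' S R N K B V hVs ω hz'
      have h6 := hdet _ (hB i _ hvi _ hvi')
      rw [hω v, hω v'] at h6
      have h7 : cnt (bx n) (per N T)ᶜ (φ ω) ≤ cnt (bx n) (dp T) (sp v (φ ω) - sp v' (φ ω)) := by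
        refine cnt_imp _ _ _ _ _ fun p _ hp => ?_
        have h8 : ¬ (∃ v ∈ bx N, ∃ v' ∈ bx N, v ≠ v' ∧
            ‖sp v (sp p (φ ω)) - sp v' (sp p (φ ω))‖ < 1 / 36 * Real.exp (-T)) := hp
        push Not at h8
        have h9 := h8 v hv v' hv' hne
        have e : sp v (sp p (φ ω)) - sp v' (sp p (φ ω)) = sp p (sp v (φ ω) - sp v' (φ ω)) := by
          rw [← sp_add, ← sp_add, add_comm v p, add_comm v' p, sp_add, sp_add]
          unfold sp
          rw [smul_sub]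
        rw [e] at h9
        exact h9
      have h10 : (cnt (bx n) (per N T)ᶜ (φ ω) : ℝ) ≤ f * ((n : ℝ) * n) :=
        le_trans (by exact_mod_cast h7) h6
      have h11 : (n * n : ℝ≥0∞) = ENNReal.ofReal ((n : ℝ) * n) := by
        rw [ENNReal.ofReal_mul (Nat.cast_nonneg _), ENNReal.ofReal_natCast]
      rw [h11, ← ENNReal.ofReal_mul hf, ← ENNReal.ofReal_natCast]
      exact ENNReal.ofReal_le_ofReal h10
  have hper : MeasurableSet (per N T)ᶜ := (per_open N T).measurableSet.compl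
  have hint : ∫⁻ ω, (cnt (bx n) (per N T)ᶜ (φ ω) : ℝ≥0∞) ∂P ≤
      ∫⁻ ω, (ENNReal.ofReal f * (n * n : ℝ≥0∞) + Z.indicator (fun _ => (n * n : ℝ≥0∞)) ω) ∂P :=
    lintegral_mono_ae hpt
  have hint2 : ∫⁻ ω, (cnt (bx n) (per N T)ᶜ (φ ω) : ℝ≥0∞) ∂P =
      ((bx n).card : ℝ≥0∞) * (P.map φ) (per N T)ᶜ := by
    rw [← cnt_lintegral (P.map φ) hν2 hν3 _ _ hper,
      lintegral_map (cnt_measurable _ _ hper) hφ]
  rw [hint2, card_bx, lintegral_add_left measurable_const, lintegral_const, measure_univ, mul_one,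
    lintegral_indicator hZm, setLIntegral_const] at hint
  have hnn : (n * n : ℝ≥0∞) ≠ 0 := by
    simp only [ne_eq, mul_eq_zero, Nat.cast_eq_zero, or_self]
    omega
  have hnT : (n * n : ℝ≥0∞) ≠ ⊤ :=
    ENNReal.mul_ne_top (ENNReal.natCast_ne_top _) (ENNReal.natCast_ne_top _)
  have hfin : (n * n : ℝ≥0∞) * (P.map φ) (per N T)ᶜ ≤
      (n * n : ℝ≥0∞) * ENNReal.ofReal (1 - (κ - ε - f)) := by
    have h12 : (n * n : ℝ≥0∞) * (P.map φ) (per N T)ᶜ ≤
        ENNReal.ofReal f * (n * n : ℝ≥0∞) + (n * n : ℝ≥0∞) * P Z := by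
      refine le_trans (le_of_eq ?_) hint
      push_cast
      rfl
    refine h12.trans ?_
    rw [mul_comm (ENNReal.ofReal f), ← mul_add]
    refine mul_le_mul_right ?_ _
    calc ENNReal.ofReal f + P Z ≤ ENNReal.ofReal f + ENNReal.ofReal (1 - κ + ε) := by
          gcongr
      _ = ENNReal.ofReal (f + (1 - κ + ε)) :=
          (ENNReal.ofReal_add hf (by linarith)).symm
      _ = ENNReal.ofReal (1 - (κ - ε - f)) := by congr 1; ring
  have h13 := (ENNReal.mul_le_mul_iff_right hnn hnT).1 hfin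
  have hprob : IsProbabilityMeasure (P.map φ) := Measure.isProbabilityMeasure_map hφ.aemeasurable
  have h14 : (P.map φ) (per N T) = 1 - (P.map φ) (per N T)ᶜ := by
    rw [prob_compl_eq_one_sub (per_open N T).measurableSet]
    rw [ENNReal.sub_sub_cancel ENNReal.one_ne_top prob_le_one]
  rw [h14]
  have h15 : ENNReal.ofReal (κ - ε - f) = 1 - ENNReal.ofReal (1 - (κ - ε - f)) := by
    rw [← ENNReal.ofReal_one, ← ENNReal.ofReal_sub _ (by linarith)]
    congr 1
    ring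
  rw [h15]
  exact tsub_le_tsub_left h13 _

end system

/-- points which are in infinitely many of the sets -/
theorem often (ν : Measure (AddCircle (1 : ℝ))) [IsProbabilityMeasure ν] (κ : ℝ)
    (E : ℕ → Set (AddCircle (1 : ℝ))) (hE : ∀ k, MeasurableSet (E k))
    (hEκ : ∀ k, ENNReal.ofReal κ ≤ ν (E k)) :
    ENNReal.ofReal κ ≤ ν {x | ∃ᶠ k in atTop, x ∈ E k} := by
  set F : ℕ → Set (AddCircle (1 : ℝ)) := fun m => ⋃ k : ℕ, E (m + k) with hF
  have hFm : ∀ m, MeasurableSet (F m) := fun m => MeasurableSet.iUnion fun k => hE _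
  have hanti : Antitone F := by
    intro m m' hmm x hx
    simp only [hF, Set.mem_iUnion] at hx ⊢
    obtain ⟨k, hk⟩ := hx
    refine ⟨m' + k - m, ?_⟩
    have e : m + (m' + k - m) = m' + k := by omega
    rw [e]
    exact hk
  have h1 : (⋂ m, F m) ⊆ {x | ∃ᶠ k in atTop, x ∈ E k} := by
    intro x hx
    change ∃ᶠ k in atTop, x ∈ E k
    rw [frequently_atTop]
    intro m
    have := Set.mem_iInter.1 hx m
    simp only [hF, Set.mem_iUnion] at this
    obtain ⟨k, hk⟩ := this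
    exact ⟨m + k, by omega, hk⟩
  have h2 : Tendsto (fun m => ν (F m)) atTop (𝓝 (ν (⋂ m, F m))) :=
    tendsto_measure_iInter_atTop (fun m => (hFm m).nullMeasurableSet) hanti
      ⟨0, measure_ne_top _ _⟩
  refine le_trans (ge_of_tendsto' h2 fun m => (hEκ m).trans (measure_mono ?_)) (measure_mono h1)
  intro x hx
  simp only [hF, Set.mem_iUnion]
  exact ⟨0, by simpa using hx⟩

/-- a point with an approximate period of size `m ≤ 6 ^ N`, `A N log 6 ≤ T`, for arbitrarily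
large `T`, is rational or very well approximable -/
theorem well_approx (x : AddCircle (1 : ℝ)) (A : ℝ) (hA : 0 ≤ A) (Q : ℕ)
    (hQ : ∀ q : ℕ, Q ≤ q → (q : ℝ) ^ (-A) ≤ ‖q • x‖)
    (h : ∀ T₀ : ℝ, ∃ T ≥ T₀, ∃ N : ℕ, A * (N * Real.log 6) ≤ T ∧ x ∈ per N T) :
    ∃ m : ℕ, 0 < m ∧ m • x = 0 := by
  by_contra hcon
  push Not at hcon
  -- the small multiples
  have hδ : ∃ δ > 0, ∀ q : ℕ, 0 < q → q < Q → δ ≤ ‖q • x‖ := by
    rcases Nat.eq_zero_or_pos (Q - 1) with hQ1 | hQ1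
    · exact ⟨1, one_pos, fun q h1 h2 => by omega⟩
    · have hne : (Finset.Ico 1 Q).Nonempty := ⟨1, by simp; omega⟩
      obtain ⟨q0, hq0, hmin⟩ := Finset.exists_min_image (Finset.Ico 1 Q) (fun q => ‖q • x‖) hne
      rw [Finset.mem_Ico] at hq0
      refine ⟨‖q0 • x‖, norm_pos_iff.2 (hcon q0 (by omega)), fun q h1 h2 => ?_⟩
      exact hmin q (Finset.mem_Ico.2 ⟨h1, h2⟩)
  obtain ⟨δ, hδ0, hδ⟩ := hδ
  obtain ⟨T, hT, N, hN, hx⟩ := h (-Real.log δ)
  obtain ⟨m, hm0, hm1, hm2⟩ := per_mult N T x hx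
  have hm3 : ‖m • x‖ < Real.exp (-T) := by
    have := Real.exp_pos (-T)
    linarith
  by_cases hmQ : m < Q
  · have h1 := hδ m hm0 hmQ
    have h2 : Real.exp (-T) ≤ δ := by
      rw [← Real.exp_log hδ0]
      exact Real.exp_le_exp.2 (by linarith)
    linarith
  · have h1 := hQ m (not_lt.1 hmQ)
    have hmpos : (0 : ℝ) < m := by exact_mod_cast hm0
    have h2 : Real.exp (-T) ≤ (m : ℝ) ^ (-A) := by
      rw [Real.rpow_def_of_pos hmpos]
      apply Real.exp_le_exp.2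
      have h3 : Real.log m ≤ N * Real.log 6 := by
        rw [← Real.log_pow]
        exact Real.log_le_log hmpos hm1
      have h4 := mul_le_mul_of_nonneg_left h3 hA
      linarith
    linarith

/-- the very well approximable points of exponent `A` (and the rational points) -/
def vwa (A : ℝ) : Set (AddCircle (1 : ℝ)) := {x | ∀ Q : ℕ, ∃ q : ℕ, Q ≤ q ∧ ‖q • x‖ < (q : ℝ) ^ (-A)}

theorem vwa_meas (A : ℝ) : MeasurableSet (vwa A) := by
  have e : vwa A = ⋂ Q : ℕ, ⋃ q : ℕ, {x | Q ≤ q ∧ ‖q • x‖ < (q : ℝ) ^ (-A)} := by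
    ext x
    simp [vwa]
  rw [e]
  refine MeasurableSet.iInter fun Q => MeasurableSet.iUnion fun q => ?_
  by_cases h : Q ≤ q
  · have e2 : {x : AddCircle (1 : ℝ) | Q ≤ q ∧ ‖q • x‖ < (q : ℝ) ^ (-A)} =
        {x | ‖q • x‖ < (q : ℝ) ^ (-A)} := by
      ext x; simp [h]
    rw [e2]
    exact (isOpen_lt (continuous_nsmul q).norm continuous_const).measurableSet
  · have e2 : {x : AddCircle (1 : ℝ) | Q ≤ q ∧ ‖q • x‖ < (q : ℝ) ^ (-A)} = ∅ := by
      ext x; simp [h]
    rw [e2]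
    exact MeasurableSet.empty

theorem vwa_anti {A A' : ℝ} (h : A ≤ A') : vwa A' ⊆ vwa A := by
  intro x hx Q
  obtain ⟨q, hq, hlt⟩ := hx (max Q 1)
  refine ⟨q, (le_max_left _ _).trans hq, hlt.trans_le ?_⟩
  have h1 : (1 : ℝ) ≤ q := by exact_mod_cast (le_max_right Q 1).trans hq
  exact Real.rpow_le_rpow_of_exponent_le h1 (by linarith)

section system

variable {Ω : Type*} [MeasurableSpace Ω]

/-- **All large scales.** -/
theorem dio (P : Measure Ω) [IsProbabilityMeasure P] {S R : Ω → Ω}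
    (hS : MeasurePreserving S P P) (hR : MeasurePreserving R P P) (φ : Ω → AddCircle (1 : ℝ))
    (hφ : Measurable φ) (h2 : ∀ᵐ ω ∂P, φ (S ω) = (2 : ℕ) • φ ω)
    (h3 : ∀ᵐ ω ∂P, φ (R ω) = (3 : ℕ) • φ ω) (hat : ∀ x, (P.map φ) {x} = 0)
    (η : ℝ) (hη : 0 < η) (hη1 : η ≤ 1) (κ : ℝ) (hκ1 : κ ≤ 1)
    (hκ : (P.map φ) {x | ∀ A : ℝ, ∀ Q : ℕ, ∃ q : ℕ, Q ≤ q ∧ ‖q • x‖ < (q : ℝ) ^ (-A)} <
      ENNReal.ofReal κ) :
    ∃ c : ℝ, 0 < c ∧ ∃ n₀ : ℕ, ∀ n : ℕ, n₀ ≤ n → ∀ (K : ℕ) (B : Fin K → Set Ω),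
      (K : ℝ) ≤ c * (n : ℝ) ^ 2 →
      (∀ i, ∀ x ∈ B i, ∀ y ∈ B i, (cnt (bx n) far (φ x - φ y) : ℝ) ≤ (n : ℝ) ^ (2 - η)) →
      ENNReal.ofReal (1 - κ) < P (⋃ i, B i)ᶜ := by
  have hprob : IsProbabilityMeasure (P.map φ) := Measure.isProbabilityMeasure_map hφ.aemeasurable
  -- one exponent
  obtain ⟨A, hA⟩ : ∃ A : ℕ, (P.map φ) (vwa A) < ENNReal.ofReal κ := by
    have h4 : Tendsto (fun A : ℕ => (P.map φ) (vwa A)) atTop (𝓝 ((P.map φ) (⋂ A : ℕ, vwa A))) :=
      tendsto_measure_iInter_atTop (fun m => (vwa_meas _).nullMeasurableSet)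
        (fun A A' h => vwa_anti (by exact_mod_cast h)) ⟨0, measure_ne_top _ _⟩
    have h5 : (⋂ A : ℕ, vwa (A : ℝ)) ⊆
        {x | ∀ A : ℝ, ∀ Q : ℕ, ∃ q : ℕ, Q ≤ q ∧ ‖q • x‖ < (q : ℝ) ^ (-A)} := by
      intro x hx A
      obtain ⟨A', hA'⟩ := exists_nat_ge A
      exact vwa_anti hA' (Set.mem_iInter.1 hx A')
    exact ((h4.eventually_lt_const ((measure_mono h5).trans_lt hκ))).exists
  set w : ℝ := ((P.map φ) (vwa A)).toReal with hw
  have hw0 : 0 ≤ w := ENNReal.toReal_nonneg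
  have hwκ : w < κ := by
    rw [hw]
    exact (ENNReal.lt_ofReal_iff_toReal_lt (measure_ne_top _ _)).1 hA
  have hAw : (P.map φ) (vwa A) = ENNReal.ofReal w := (ENNReal.ofReal_toReal (measure_ne_top _ _)).symm
  have hA0 : (0 : ℝ) ≤ A := Nat.cast_nonneg _
  obtain ⟨δ, hδ⟩ : ∃ δ : ℝ, δ = κ - w := ⟨_, rfl⟩
  have hδ0 : 0 < δ := by linarith
  have hδ1 : δ ≤ 1 := by linarith
  obtain ⟨G, L, C, hG, hL, hC, hdet⟩ := det η hη hη1
  set c₂ : ℝ := δ / (128 * L) with hc₂
  have hc₂0 : 0 < c₂ := by positivity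
  set s : ℝ := c₂ / (16 * ((A : ℝ) + 1)) with hs
  have hs0 : 0 < s := by positivity
  refine ⟨δ / 4 * s ^ 2, by positivity, ?_⟩
  by_contra hcon
  push Not at hcon
  -- the depth scale
  have hxt : Tendsto (fun n : ℕ => c₂ * (n : ℝ)) atTop atTop :=
    (tendsto_natCast_atTop_atTop (R := ℝ)).const_mul_atTop hc₂0
  obtain ⟨J, hJ⟩ := exists_J' _ hxt G (by linarith)
  set N : ℕ → ℕ := fun n => ⌈s * (n : ℝ)⌉₊ with hN
  set T : ℕ → ℝ := fun n => G * 2 ^ (J n) with hT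
  have he1 : ∀ᶠ n : ℕ in atTop, C * (n : ℝ) ^ (-(η / 2)) ≤ δ / 8 := by
    have h4 : Tendsto (fun n : ℕ => C * (n : ℝ) ^ (-(η / 2))) atTop (𝓝 (C * 0)) :=
      ((tendsto_rpow_neg_atTop (by linarith : 0 < η / 2)).comp
        (tendsto_natCast_atTop_atTop (R := ℝ))).const_mul C
    rw [mul_zero] at h4
    exact (h4.eventually_lt_const (by linarith : (0 : ℝ) < δ / 8)).mono fun n h => h.le
  have he2 : ∀ᶠ n : ℕ in atTop, 16 * ((A : ℝ) + 1) ≤ c₂ * n := hxt.eventually_ge_atTop _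
  have he3 : ∀ᶠ n : ℕ in atTop, 1 ≤ n := eventually_ge_atTop 1
  obtain ⟨n₁, hn₁⟩ := eventually_atTop.1 (((he1.and he2).and he3).and hJ)
  -- at each bad scale the set `per` has measure at least `κ - δ / 2`
  have hbad : ∀ m : ℕ, ∃ n ≥ m, (A : ℝ) * (N n * Real.log 6) ≤ T n ∧ c₂ * n / 2 < T n ∧
      ENNReal.ofReal (κ - δ / 2) ≤ (P.map φ) (per (N n) (T n)) := by
    intro m
    obtain ⟨n, hn, K, B, hK, hB, hP⟩ := hcon (max m n₁)
    have hnm : m ≤ n := (le_max_left _ _).trans hn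
    obtain ⟨⟨⟨g1, g2⟩, g3⟩, g4, g5⟩ := hn₁ n ((le_max_right _ _).trans hn)
    have hnpos : (0 : ℝ) < n := by exact_mod_cast g3
    refine ⟨n, hnm, ?_, g4, ?_⟩
    · have h5 : (N n : ℝ) ≤ s * n + 1 := (Nat.ceil_lt_add_one (by positivity)).le
      have h6 : (N n : ℝ) * Real.log 6 ≤ (s * n + 1) * 2 :=
        mul_le_mul h5 log_six_le (Real.log_nonneg (by norm_num)) (by positivity)
      have h7 : ((A : ℝ) + 1) * (s * n) = c₂ * n / 16 := by
        rw [hs]
        field_simp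
      have h8 : (A : ℝ) * (N n * Real.log 6) ≤ ((A : ℝ) + 1) * ((s * n + 1) * 2) := by
        have h9 : (A : ℝ) * (N n * Real.log 6) ≤ A * ((s * n + 1) * 2) :=
          mul_le_mul_of_nonneg_left h6 hA0
        have h10 : 0 ≤ (s * n + 1) * 2 := by positivity
        linarith
      have h11 : ((A : ℝ) + 1) * ((s * n + 1) * 2) = c₂ * n / 8 + 2 * ((A : ℝ) + 1) := by
        calc ((A : ℝ) + 1) * ((s * n + 1) * 2) =
              2 * (((A : ℝ) + 1) * (s * n)) + 2 * ((A : ℝ) + 1) := by ring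
          _ = c₂ * n / 8 + 2 * ((A : ℝ) + 1) := by rw [h7]; ring
      have h12 : c₂ * n / 2 < T n := g4
      linarith
    · have hN1 : 1 ≤ N n := Nat.ceil_pos.2 (by positivity)
      have h5 : s * n ≤ N n := Nat.le_ceil _
      have h6 : (K : ℝ) ≤ δ / 4 * (N n * N n) := by
        have h7 : (s * n) * (s * n) ≤ (N n : ℝ) * N n :=
          mul_le_mul h5 h5 (by positivity) (by positivity)
        have h8 := mul_le_mul_of_nonneg_left h7 (by linarith : 0 ≤ δ / 4)
        have h9 : δ / 4 * s ^ 2 * (n : ℝ) ^ 2 = δ / 4 * ((s * n) * (s * n)) := by ring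
        rw [h9] at hK
        linarith
      have hTn : T n ≤ c₂ * n := g5
      have hc₂L : 16 * L * c₂ = δ / 8 := by
        rw [hc₂]
        field_simp
        ring
      have hc₂1 : c₂ ≤ 1 := by
        rw [hc₂, div_le_one (by positivity)]
        linarith
      set f : ℝ := C * (n : ℝ) ^ (-(η / 2)) + 16 * L * (T n / n) with hf
      have hG0 : 0 < G := by linarith
      have hf0 : 0 ≤ f := by
        have h10 := Real.rpow_pos_of_pos hnpos (-(η / 2))
        simp only [hf, hT]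
        positivity
      have hf1 : f ≤ δ / 4 := by
        have h10 : T n / n ≤ c₂ := by
          rw [div_le_iff₀ hnpos]
          exact hTn
        have h11 : 16 * L * (T n / n) ≤ 16 * L * c₂ := mul_le_mul_of_nonneg_left h10 (by positivity)
        rw [hc₂L] at h11
        rw [hf]
        linarith
      refine le_trans (ENNReal.ofReal_le_ofReal (by linarith : κ - δ / 2 ≤ κ - δ / 4 - f))
        (measE P hS hR φ hφ h2 h3 n (N n) K g3 hN1 B κ (δ / 4) (by linarith) (by linarith)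
          (by linarith) hκ1 h6 _ hB hP (T n) f hf0 (by linarith) ?_)
      intro y hy
      have hGn : G * 2 ^ (J n) ≤ n := by
        refine hTn.trans ?_
        nlinarith
      refine (hdet y n (J n) g3 hGn hy).trans (le_of_eq ?_)
      have e : (n : ℝ) ^ (2 - η / 2) = (n : ℝ) ^ (-(η / 2)) * ((n : ℝ) * n) := by
        have h14 : (n : ℝ) * n = (n : ℝ) ^ (2 : ℝ) := by
          rw [Real.rpow_two]; ring
        rw [h14, ← Real.rpow_add hnpos]
        congr 1
        ring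
      rw [e, hf]
      simp only [hT]
      field_simp
  choose b hb1 hb2 hb3 hb4 using hbad
  have hoft := often (P.map φ) (κ - δ / 2) (fun k => per (N (b k)) (T (b k)))
    (fun k => (per_open _ _).measurableSet) hb4
  have hbt : Tendsto (fun k => T (b k)) atTop atTop := by
    have h4 : Tendsto b atTop atTop := tendsto_atTop_mono hb1 tendsto_id
    have h5 : Tendsto (fun k => c₂ * (b k : ℝ) / 2) atTop atTop :=
      (hxt.comp h4).atTop_div_const (by norm_num)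
    exact tendsto_atTop_mono (fun k => (hb3 k).le) h5
  have hsub : {x | ∃ᶠ k in atTop, x ∈ per (N (b k)) (T (b k))} ⊆
      vwa A ∪ {w | ∃ m : ℕ, 0 < m ∧ m • w = 0} := by
    intro x hx
    by_cases hxA : x ∈ vwa A
    · exact Or.inl hxA
    · right
      unfold vwa at hxA
      rw [Set.mem_ofPred_eq] at hxA
      push Not at hxA
      obtain ⟨Q, hQ⟩ := hxA
      refine well_approx x A hA0 Q hQ fun T₀ => ?_
      have hx' : ∃ᶠ k in atTop, x ∈ per (N (b k)) (T (b k)) := hx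
      obtain ⟨k, hk1, hk2⟩ := (hx'.and_eventually (hbt.eventually_ge_atTop T₀)).exists
      exact ⟨T (b k), hk2, N (b k), hb2 k, hk1⟩
  have h20 : ENNReal.ofReal (κ - δ / 2) ≤ ENNReal.ofReal w := by
    refine hoft.trans ((measure_mono hsub).trans ((measure_union_le _ _).trans ?_))
    rw [torsion_null (P.map φ) hat, add_zero, hAw]
  have h21 : ENNReal.ofReal w < ENNReal.ofReal (κ - δ / 2) :=
    (ENNReal.ofReal_lt_ofReal_iff (by linarith)).2 (by linarith)
  exact absurd h20 (not_le.2 h21)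

end system

end Pool.Agent.CplxN
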