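import Pool.Agent.CplxN.Core

/-! Complexity of `×2`, `×3`-invariant measures: the main theorem (windows of bounded ratio). -/

namespace Pool.Agent.CplxN

open Pool.Agent.SubT Pool.Agent.SlowV

open scoped BigOperators ENNReal

open MeasureTheory Set Filter Topology

theorem log_six_le : Real.log 6 ≤ 2 := by
  have h14 : Real.log 6 ≤ Real.log (Real.exp 2) := by
    apply Real.log_le_log (by norm_num)
    have h15 := Real.exp_one_gt_d9
    have h16 : Real.exp 2 = Real.exp 1 * Real.exp 1 := by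
      rw [← Real.exp_add]; norm_num
    rw [h16]
    nlinarith
  rwa [Real.log_exp] at h14

theorem summable_pow_rpow (a : ℝ) (ha : 0 < a) : Summable (fun j : ℕ => ((2 : ℝ) ^ j) ^ (-a)) := by
  have e : (fun j : ℕ => ((2 : ℝ) ^ j) ^ (-a)) = fun j : ℕ => ((2 : ℝ) ^ (-a)) ^ j := by
    funext j
    rw [← Real.rpow_natCast, ← Real.rpow_natCast, ← Real.rpow_mul (by norm_num),
      ← Real.rpow_mul (by norm_num), mul_comm]
  rw [e]
  exact summable_geometric_of_lt_one (by positivity)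
    (Real.rpow_lt_one_of_one_lt_of_neg (by norm_num) (by linarith))

theorem summable_ell (a : ℝ) (ha : 0 < a) : Summable (fun j : ℕ => ell j ^ (-(1 + a))) := by
  have hlog2 : 0 < Real.log 2 := Real.log_pos (by norm_num)
  have e : (fun j : ℕ => ell j ^ (-(1 + a))) =
      fun j : ℕ => Real.log 2 ^ (-(1 + a)) * (j : ℝ) ^ (-(1 + a)) := by
    funext j
    rw [ell, Real.mul_rpow (Nat.cast_nonneg _) hlog2.le, mul_comm]
  rw [e]
  exact (Real.summable_nat_rpow.2 (by linarith)).mul_left _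

/-- dyadic approximation of a sequence which tends to infinity -/
theorem exists_J' (x : ℕ → ℝ) (hx : Tendsto x atTop atTop) (G : ℝ) (hG : 0 < G) :
    ∃ J : ℕ → ℕ, ∀ᶠ j in atTop, x j / 2 < G * 2 ^ (J j) ∧ G * 2 ^ (J j) ≤ x j := by
  have h1 : ∀ᶠ j in atTop, G ≤ x j := hx.eventually_ge_atTop G
  have h2 : ∀ j : ℕ, G ≤ x j → ∃ J : ℕ, x j / 2 < G * 2 ^ J ∧ G * 2 ^ J ≤ x j := by
    intro j hj
    obtain ⟨J, hJ1, hJ2⟩ := exists_nat_pow_near (x := x j / G) (y := 2)
      ((one_le_div hG).2 hj) (by norm_num)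
    refine ⟨J, ?_, ?_⟩
    · rw [div_lt_iff₀ hG, pow_succ] at hJ2
      rw [div_lt_iff₀ (by norm_num)]
      linarith
    · rw [le_div_iff₀ hG] at hJ1
      linarith
  choose! J hJ using h2
  exact ⟨J, h1.mono fun j hj => hJ j hj⟩

/-- a sequence of scales with a property which holds at least once in each window -/
theorem low_seq (Low : ℕ → Prop) (U : ℕ → ℝ) (m₀ : ℕ)
    (h : ∀ m, m₀ ≤ m → ∃ n : ℕ, m ≤ n ∧ (n : ℝ) ≤ U m ∧ Low n) :
    ∃ a : ℕ → ℕ, (∀ j, 2 ^ j ≤ a j) ∧ (∀ j, Low (a j)) ∧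
      (∀ j, 2 * a j ≤ a (j + 1)) ∧ ∀ j, (a (j + 1) : ℝ) ≤ U (2 * a j) := by
  have hcon' : ∀ m : ℕ, ∃ n : ℕ, m₀ ≤ m → m ≤ n ∧ (n : ℝ) ≤ U m ∧ Low n := by
    intro m
    by_cases hm : m₀ ≤ m
    · obtain ⟨n, h1, h2, h3⟩ := h m hm
      exact ⟨n, fun _ => ⟨h1, h2, h3⟩⟩
    · exact ⟨0, fun h => absurd h hm⟩
  choose nx hnx using hcon'
  set a : ℕ → ℕ := fun j => Nat.rec (nx (max m₀ 1)) (fun _ b => nx (2 * b)) j with ha
  have ha0 : a 0 = nx (max m₀ 1) := rfl
  have has : ∀ j, a (j + 1) = nx (2 * a j) := fun j => rfl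
  have hlow : ∀ j, m₀ ≤ a j ∧ 2 ^ j ≤ a j ∧ Low (a j) := by
    intro j
    induction j with
    | zero =>
      obtain ⟨h4, -, h6⟩ := hnx (max m₀ 1) (le_max_left _ _)
      rw [ha0]
      refine ⟨(le_max_left _ _).trans h4, ?_, h6⟩
      rw [pow_zero]
      exact (le_max_right _ _).trans h4
    | succ j ih =>
      obtain ⟨i1, i2, -⟩ := ih
      obtain ⟨h4, -, h6⟩ := hnx (2 * a j) (by omega)
      rw [has]
      refine ⟨by omega, ?_, h6⟩
      rw [pow_succ]
      omega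
  refine ⟨a, fun j => (hlow j).2.1, fun j => (hlow j).2.2, fun j => ?_, fun j => ?_⟩
  · obtain ⟨h4, -, -⟩ := hnx (2 * a j) (by have := (hlow j).1; omega)
    rw [has]
    exact h4
  · obtain ⟨-, h5, -⟩ := hnx (2 * a j) (by have := (hlow j).1; omega)
    rw [has]
    exact h5

section system

variable {Ω : Type*} [MeasurableSpace Ω]

theorem gen_le_one (P : Measure Ω) [IsProbabilityMeasure P] {S R : Ω → Ω}
    (hS : MeasurePreserving S P P) (hR : MeasurePreserving R P P) (φ : Ω → AddCircle (1 : ℝ))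
    (hφ : Measurable φ) (h2 : ∀ᵐ ω ∂P, φ (S ω) = (2 : ℕ) • φ ω)
    (h3 : ∀ᵐ ω ∂P, φ (R ω) = (3 : ℕ) • φ ω) (hat : ∀ x, (P.map φ) {x} = 0)
    (η : ℝ) (hη : 0 < η) (hη1 : η ≤ 1) (W : ℝ) (hW : 1 ≤ W) (m₀ : ℕ) :
    ∃ m ≥ m₀, ∀ n : ℕ, m ≤ n → (n : ℝ) ≤ W * m →
      ∀ (K : ℕ) (B : Fin K → Set Ω), (K : ℝ) ≤ (n : ℝ) ^ 2 / (Real.log n) ^ (2 + η) →
      (∀ i, ∀ x ∈ B i, ∀ y ∈ B i, (cnt (bx n) far (φ x - φ y) : ℝ) ≤ (n : ℝ) ^ (2 - η)) →
      ENNReal.ofReal ((Real.log n) ^ (-(1 + η))) < P (⋃ i, B i)ᶜ := by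
  by_contra hcon
  push Not at hcon
  obtain ⟨a, h2a, hlow, hge, hnext⟩ := low_seq (fun n => ∃ (K : ℕ) (B : Fin K → Set Ω),
      (K : ℝ) ≤ (n : ℝ) ^ 2 / (Real.log n) ^ (2 + η) ∧
      (∀ i, ∀ x ∈ B i, ∀ y ∈ B i, (cnt (bx n) far (φ x - φ y) : ℝ) ≤ (n : ℝ) ^ (2 - η)) ∧
      P (⋃ i, B i)ᶜ ≤ ENNReal.ofReal ((Real.log n) ^ (-(1 + η)))) (fun m => W * m) m₀ hcon
  choose K B hK hB hP using hlow
  have hlog2 : 0 < Real.log 2 := Real.log_pos (by norm_num)
  have ha1 : ∀ j, (1 : ℝ) ≤ a j := fun j => by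
    have : 1 ≤ a j := Nat.one_le_two_pow.trans (h2a j)
    exact_mod_cast this
  have h2a' : ∀ j, (2 : ℝ) ^ j ≤ a j := fun j => by exact_mod_cast h2a j
  have hat' : Tendsto (fun j => (a j : ℝ)) atTop atTop :=
    tendsto_atTop_mono h2a' (tendsto_pow_atTop_atTop_of_one_lt (by norm_num))
  -- the logarithms
  set l : ℕ → ℝ := fun j => Real.log (a j) with hl
  have hell : ∀ j, ell j ≤ l j := fun j => by
    rw [← log_two_pow]
    exact Real.log_le_log (by positivity) (by exact_mod_cast h2a j)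
  have hlt : Tendsto l atTop atTop := tendsto_atTop_mono hell ell_tendsto
  obtain ⟨G, L, C, hG, hL, hC, hcore⟩ := core η hη hη1
  set x : ℕ → ℝ := fun j => (a j : ℝ) / l j ^ (1 + η / 4) with hx
  have hxt : Tendsto x atTop atTop := by
    have h1 : Tendsto (fun x : ℝ => Real.exp x / x ^ (1 + η / 4)) atTop atTop :=
      tendsto_exp_div_rpow_atTop _
    refine (h1.comp hlt).congr fun j => ?_
    simp only [Function.comp, hl, hx]
    rw [Real.exp_log (by linarith [ha1 j])]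
  obtain ⟨J, hJ⟩ := exists_J' x hxt G (by linarith)
  set N : ℕ → ℕ := fun j => ⌈2 * (a j : ℝ) / l j ^ (1 + η / 2)⌉₊ with hN
  have he1 : ∀ᶠ j in atTop, (32 * W : ℝ) ≤ l j ^ (η / 4) :=
    ((tendsto_rpow_atTop (by linarith : 0 < η / 4)).comp hlt).eventually_ge_atTop _
  have he2 : ∀ᶠ j in atTop, (8 : ℝ) ≤ x j := hxt.eventually_ge_atTop 8
  have he3 : ∀ᶠ j in atTop, (1 : ℝ) ≤ ell j := ell_tendsto.eventually_ge_atTop 1
  have hTt : Tendsto (fun j => G * 2 ^ (J j)) atTop atTop :=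
    tendsto_atTop_mono' _ (hJ.mono fun j hj => hj.1.le) (hxt.atTop_div_const (by norm_num))
  refine hcore P hS hR φ hφ h2 h3 hat a N J K (fun j => l j ^ (-(1 + η))) B ?_ hTt ?_
  · filter_upwards [he1, he2, he3, hJ] with j h4 h5 h6 h8
    have hl1 : 1 ≤ l j := h6.trans (hell j)
    have hl0 : 0 < l j := by linarith
    have h1 := ha1 j
    have hpos : (0 : ℝ) < a j := by linarith
    have hx0 : 0 < x j := by linarith
    refine ⟨by exact_mod_cast h1, ?_, ?_, hB j, hP j, (Real.rpow_pos_of_pos hl0 _).le, ?_⟩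
    · refine h8.2.trans ?_
      exact div_le_self hpos.le (Real.one_le_rpow hl1 (by linarith))
    · have h9 : 2 * (a j : ℝ) / l j ^ (1 + η / 2) ≤ N j := Nat.le_ceil _
      have h10 : 0 < 2 * (a j : ℝ) / l j ^ (1 + η / 2) := by
        have := Real.rpow_pos_of_pos hl0 (1 + η / 2)
        positivity
      have h12 : (2 * (a j : ℝ) / l j ^ (1 + η / 2)) *
          (2 * (a j : ℝ) / l j ^ (1 + η / 2)) ≤ (N j : ℝ) * N j :=
        mul_le_mul h9 h9 h10.le (by positivity)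
      have h11 : 4 * ((a j : ℝ) ^ 2 / l j ^ (2 + η)) ≤ (N j : ℝ) * N j := by
        refine le_trans (le_of_eq ?_) h12
        have e : l j ^ (2 + η) = l j ^ (1 + η / 2) * l j ^ (1 + η / 2) := by
          rw [← Real.rpow_add hl0]
          congr 1
          ring
        have h13 : l j ^ (1 + η / 2) ≠ 0 := (Real.rpow_pos_of_pos hl0 _).ne'
        rw [e]
        field_simp
        ring
      have h14 : 0 < (N j : ℝ) * N j := lt_of_lt_of_le (mul_pos h10 h10) h12
      have h15 : 2 * (K j : ℝ) < (N j : ℝ) * N j := by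
        have := hK j
        linarith
      exact_mod_cast h15
    · have h8' : l j ≤ l (j + 1) := by
        refine Real.log_le_log hpos ?_
        have := hge j
        have h16 : a j ≤ a (j + 1) := by omega
        exact_mod_cast h16
      have h8'' : 0 < l (j + 1) := hl0.trans_le h8'
      have h9 : (N (j + 1) : ℝ) ≤ 2 * (a (j + 1) : ℝ) / l (j + 1) ^ (1 + η / 2) + 1 :=
        (Nat.ceil_lt_add_one (by positivity)).le
      have hnj : (a (j + 1) : ℝ) ≤ 2 * W * a j := by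
        have := hnext j
        push_cast at this
        linarith
      have h10 : 2 * (a (j + 1) : ℝ) / l (j + 1) ^ (1 + η / 2) ≤
          4 * W * ((a j : ℝ) / l j ^ (1 + η / 2)) := by
        have h11 : l j ^ (1 + η / 2) ≤ l (j + 1) ^ (1 + η / 2) :=
          Real.rpow_le_rpow hl0.le h8' (by linarith)
        have h12 : 0 < l j ^ (1 + η / 2) := Real.rpow_pos_of_pos hl0 _
        calc 2 * (a (j + 1) : ℝ) / l (j + 1) ^ (1 + η / 2) ≤
            2 * (a (j + 1) : ℝ) / l j ^ (1 + η / 2) :=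
              div_le_div_of_nonneg_left (by positivity) h12 h11
          _ ≤ 2 * (2 * W * a j) / l j ^ (1 + η / 2) := by gcongr
          _ = 4 * W * ((a j : ℝ) / l j ^ (1 + η / 2)) := by ring
      have h13 : (a j : ℝ) / l j ^ (1 + η / 2) ≤ x j / (32 * W) := by
        have e : l j ^ (1 + η / 2) = l j ^ (1 + η / 4) * l j ^ (η / 4) := by
          rw [← Real.rpow_add hl0]
          congr 1
          ring
        rw [e, ← div_div]
        exact div_le_div_of_nonneg_left hx0.le (by positivity) h4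
      have h13' : 4 * W * ((a j : ℝ) / l j ^ (1 + η / 2)) ≤ x j / 8 := by
        have h22 : 4 * W * ((a j : ℝ) / l j ^ (1 + η / 2)) ≤ 4 * W * (x j / (32 * W)) :=
          mul_le_mul_of_nonneg_left h13 (by positivity)
        have e : 4 * W * (x j / (32 * W)) = x j / 8 := by
          have : W ≠ 0 := by positivity
          field_simp
          ring
        linarith
      have h17 : (N (j + 1) : ℝ) ≤ x j / 8 + 1 := by linarith
      have h18 : 0 ≤ Real.log 6 := Real.log_nonneg (by norm_num)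
      have h19 : (N (j + 1) : ℝ) * Real.log 6 ≤ (x j / 8 + 1) * 2 :=
        mul_le_mul h17 log_six_le h18 (by positivity)
      have h20 : x j / 2 < G * 2 ^ (J j) := h8.1
      linarith
  · have hs : Summable (fun j : ℕ => C * ((2 : ℝ) ^ j) ^ (-(η / 2)) +
        16 * L * ell j ^ (-(1 + η / 4)) + 2 * ell j ^ (-(1 + η))) :=
      ((((summable_pow_rpow (η / 2) (by linarith)).mul_left C).add
        ((summable_ell (η / 4) (by linarith)).mul_left (16 * L))).add
        ((summable_ell η hη).mul_left 2))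
    refine Summable.of_norm_bounded_eventually_nat hs ?_
    filter_upwards [he3, hJ] with j h6 h8
    have hle0 : 0 < ell j := by linarith
    have hl0 : 0 < l j := hle0.trans_le (hell j)
    have h2j : (0 : ℝ) < 2 ^ j := by positivity
    have hpos : (0 : ℝ) < a j := by linarith [ha1 j]
    have hmono : ∀ z : ℝ, 0 ≤ z → l j ^ (-z) ≤ ell j ^ (-z) := fun z hz =>
      Real.rpow_le_rpow_of_nonpos hle0 (hell j) (by linarith)
    have h9 : G * 2 ^ (J j) / (a j : ℝ) ≤ ell j ^ (-(1 + η / 4)) := by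
      refine le_trans ?_ (hmono _ (by linarith))
      rw [div_le_iff₀ hpos, Real.rpow_neg hl0.le, ← div_eq_inv_mul]
      exact h8.2
    have h10 : 0 ≤ G * 2 ^ (J j) / (a j : ℝ) := by
      have : 0 < G := by linarith
      positivity
    have h12 : 0 ≤ C * (a j : ℝ) ^ (-(η / 2)) := by positivity
    have h11 : 0 ≤ l j ^ (-(1 + η)) := (Real.rpow_pos_of_pos hl0 _).le
    rw [Real.norm_of_nonneg (by positivity)]
    have h13 : 16 * L * (G * 2 ^ (J j) / (a j : ℝ)) ≤ 16 * L * ell j ^ (-(1 + η / 4)) :=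
      mul_le_mul_of_nonneg_left h9 (by positivity)
    have h14 : C * (a j : ℝ) ^ (-(η / 2)) ≤ C * ((2 : ℝ) ^ j) ^ (-(η / 2)) :=
      mul_le_mul_of_nonneg_left (Real.rpow_le_rpow_of_nonpos h2j (h2a' j) (by linarith))
        (by linarith)
    have h15 := hmono (1 + η) (by linarith)
    linarith

/-- **Quadratic complexity**, for a system with a coding. -/
theorem gen (P : Measure Ω) [IsProbabilityMeasure P] {S R : Ω → Ω}
    (hS : MeasurePreserving S P P) (hR : MeasurePreserving R P P) (φ : Ω → AddCircle (1 : ℝ))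
    (hφ : Measurable φ) (h2 : ∀ᵐ ω ∂P, φ (S ω) = (2 : ℕ) • φ ω)
    (h3 : ∀ᵐ ω ∂P, φ (R ω) = (3 : ℕ) • φ ω) (hat : ∀ x, (P.map φ) {x} = 0)
    (η : ℝ) (hη : 0 < η) (W : ℝ) (m₀ : ℕ) :
    ∃ m ≥ m₀, ∀ n : ℕ, m ≤ n → (n : ℝ) ≤ W * m →
      ∀ (K : ℕ) (B : Fin K → Set Ω), (K : ℝ) ≤ (n : ℝ) ^ 2 / (Real.log n) ^ (2 + η) →
      (∀ i, ∀ x ∈ B i, ∀ y ∈ B i, (cnt (bx n) far (φ x - φ y) : ℝ) ≤ (n : ℝ) ^ (2 - η)) →
      ENNReal.ofReal ((Real.log n) ^ (-(1 + η))) < P (⋃ i, B i)ᶜ := by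
  obtain ⟨m, hm, h⟩ := gen_le_one P hS hR φ hφ h2 h3 hat (min η 1) (lt_min hη one_pos)
    (min_le_right _ _) (max W 1) (le_max_right _ _) (max m₀ 3)
  have hm3 : 3 ≤ m := (le_max_right _ _).trans hm
  have hmin : min η 1 ≤ η := min_le_left _ _
  refine ⟨m, (le_max_left _ _).trans hm, fun n hn hnm K B hK hB => ?_⟩
  have hn3 : 3 ≤ n := hm3.trans hn
  have hn1 : (1 : ℝ) ≤ n := by exact_mod_cast (by omega : 1 ≤ n)
  have hlog : 1 ≤ Real.log n := by
    rw [Real.le_log_iff_exp_le (by linarith)]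
    have h15 := Real.exp_one_lt_d9
    have h16 : (3 : ℝ) ≤ n := by exact_mod_cast hn3
    linarith
  have h4 := h n hn ?_ K B ?_ ?_
  · refine lt_of_le_of_lt (ENNReal.ofReal_le_ofReal ?_) h4
    exact Real.rpow_le_rpow_of_exponent_le hlog (by linarith)
  · exact hnm.trans (mul_le_mul_of_nonneg_right (le_max_left _ _) (Nat.cast_nonneg _))
  · refine hK.trans ?_
    apply div_le_div_of_nonneg_left (by positivity)
    · exact Real.rpow_pos_of_pos (by linarith) _
    · exact Real.rpow_le_rpow_of_exponent_le hlog (by linarith)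
  · intro i x hx y hy
    exact (hB i x hx y hy).trans (Real.rpow_le_rpow_of_exponent_le hn1 (by linarith))

end system

end Pool.Agent.CplxN
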