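import Pool.Agent.CplxN.Det

/-! Complexity of `×2`, `×3`-invariant measures: from a cover by few sets to the approximate periods,
for a system `(Ω, P, S, R)` with a coding `φ : Ω → ℝ/ℤ`. -/

namespace Pool.Agent.CplxN

open Pool.Agent.SubT Pool.Agent.SlowV

open scoped BigOperators ENNReal

open MeasureTheory Set

/-- the points with an approximate period in the box `[0, N)²` -/
def per (N : ℕ) (T : ℝ) : Set (AddCircle (1 : ℝ)) :=
  {w | ∃ v ∈ bx N, ∃ v' ∈ bx N, v ≠ v' ∧ ‖sp v w - sp v' w‖ < 1 / 36 * Real.exp (-T)}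

theorem sp_cont (p : ℕ × ℕ) : Continuous (sp p) := continuous_nsmul _

theorem per_open (N : ℕ) (T : ℝ) : IsOpen (per N T) := by
  have e : per N T = ⋃ v ∈ bx N, ⋃ v' ∈ bx N, ⋃ (_ : v ≠ v'),
      {w | ‖sp v w - sp v' w‖ < 1 / 36 * Real.exp (-T)} := by
    ext w
    simp only [per, Set.mem_ofPred_eq, Set.mem_iUnion, exists_prop]
  rw [e]
  refine isOpen_biUnion fun v _ => isOpen_biUnion fun v' _ => isOpen_iUnion fun _ => ?_
  exact isOpen_lt ((sp_cont v).sub (sp_cont v')).norm continuous_const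

theorem cnt_lintegral (ν : Measure (AddCircle (1 : ℝ)))
    (h2 : MeasurePreserving (fun x => (2 : ℕ) • x) ν ν)
    (h3 : MeasurePreserving (fun x => (3 : ℕ) • x) ν ν) (A : Finset (ℕ × ℕ))
    (S : Set (AddCircle (1 : ℝ))) (hS : MeasurableSet S) :
    ∫⁻ x, (cnt A S x : ℝ≥0∞) ∂ν = (A.card : ℝ≥0∞) * ν S := by
  have hmeas : ∀ p : ℕ × ℕ, Measurable (((fun y : AddCircle (1 : ℝ) =>
      (2 ^ p.1 * 3 ^ p.2 : ℕ) • y) ⁻¹' S).indicator (fun _ => (1 : ℝ≥0∞))) := fun p =>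
    measurable_const.indicator ((GR1_mp ν h2 h3 p.1 p.2).measurable hS)
  simp_rw [← cnt_sum]
  rw [lintegral_finsetSum _ (fun p _ => hmeas p)]
  have : ∀ p ∈ A, ∫⁻ x, (((fun y : AddCircle (1 : ℝ) =>
      (2 ^ p.1 * 3 ^ p.2 : ℕ) • y) ⁻¹' S).indicator (fun _ => (1 : ℝ≥0∞))) x ∂ν = ν S := by
    intro p _
    have hm := (GR1_mp ν h2 h3 p.1 p.2)
    rw [lintegral_indicator (hm.measurable hS), setLIntegral_const, one_mul,
      hm.measure_preimage hS.nullMeasurableSet]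
  rw [Finset.sum_congr rfl this, Finset.sum_const, nsmul_eq_mul]

theorem cnt_measurable (A : Finset (ℕ × ℕ)) (S : Set (AddCircle (1 : ℝ))) (hS : MeasurableSet S) :
    Measurable (fun x => (cnt A S x : ℝ≥0∞)) := by
  simp_rw [← cnt_sum]
  exact Finset.measurable_sum _ fun p _ =>
    measurable_const.indicator ((sp_cont p).measurable hS)

theorem cnt_imp (A : Finset (ℕ × ℕ)) (S T : Set (AddCircle (1 : ℝ))) (x y : AddCircle (1 : ℝ))
    (h : ∀ p ∈ A, sp p x ∈ S → sp p y ∈ T) : cnt A S x ≤ cnt A T y := by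
  classical
  unfold cnt
  apply Finset.card_le_card
  intro p hp
  rw [Finset.mem_filter] at hp ⊢
  exact ⟨hp.1, h p hp.1 hp.2⟩

section system

variable {Ω : Type*} [MeasurableSpace Ω]

/-- `Sᵃ Rᵇ ω` -/
def orb (S R : Ω → Ω) (v : ℕ × ℕ) (ω : Ω) : Ω := S^[v.1] (R^[v.2] ω)

open Classical in
/-- the number of visits -/
noncomputable def vis (S R : Ω → Ω) (A : Finset (ℕ × ℕ)) (V : Set Ω) (ω : Ω) : ℕ :=
  (A.filter (fun p => orb S R p ω ∈ V)).card

omit [MeasurableSpace Ω] in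
theorem vis_sum (S R : Ω → Ω) (A : Finset (ℕ × ℕ)) (V : Set Ω) (ω : Ω) :
    (∑ p ∈ A, ((orb S R p ⁻¹' V).indicator (fun _ => (1 : ℝ≥0∞)) ω)) = (vis S R A V ω : ℝ≥0∞) := by
  classical
  unfold vis
  rw [Finset.card_filter]
  push_cast
  refine Finset.sum_congr rfl fun p _ => ?_
  by_cases h : orb S R p ω ∈ V
  · rw [if_pos h, Set.indicator_of_mem (by exact h)]
  · rw [if_neg h, Set.indicator_of_notMem (by exact h)]

theorem orb_mp (P : Measure Ω) {S R : Ω → Ω} (hS : MeasurePreserving S P P)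
    (hR : MeasurePreserving R P P) (v : ℕ × ℕ) : MeasurePreserving (orb S R v) P P :=
  (hS.iterate v.1).comp (hR.iterate v.2)

theorem vis_measurable {S R : Ω → Ω} (hS : Measurable S) (hR : Measurable R)
    (A : Finset (ℕ × ℕ)) (V : Set Ω) (hV : MeasurableSet V) :
    Measurable (fun ω => (vis S R A V ω : ℝ≥0∞)) := by
  simp_rw [← vis_sum]
  exact Finset.measurable_sum _ fun p _ =>
    measurable_const.indicator (((hS.iterate p.1).comp (hR.iterate p.2)) hV)

theorem vis_lintegral (P : Measure Ω) {S R : Ω → Ω} (hS : MeasurePreserving S P P)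
    (hR : MeasurePreserving R P P) (A : Finset (ℕ × ℕ)) (V : Set Ω) (hV : MeasurableSet V) :
    ∫⁻ ω, (vis S R A V ω : ℝ≥0∞) ∂P = (A.card : ℝ≥0∞) * P V := by
  have hmeas : ∀ p : ℕ × ℕ, Measurable ((orb S R p ⁻¹' V).indicator (fun _ => (1 : ℝ≥0∞))) :=
    fun p => measurable_const.indicator ((orb_mp P hS hR p).measurable hV)
  simp_rw [← vis_sum]
  rw [lintegral_finsetSum _ (fun p _ => hmeas p)]
  have : ∀ p ∈ A, ∫⁻ ω, ((orb S R p ⁻¹' V).indicator (fun _ => (1 : ℝ≥0∞))) ω ∂P = P V := by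
    intro p _
    have hm := orb_mp P hS hR p
    rw [lintegral_indicator (hm.measurable hV), setLIntegral_const, one_mul,
      hm.measure_preimage hV.nullMeasurableSet]
  rw [Finset.sum_congr rfl this, Finset.sum_const, nsmul_eq_mul]

/-- few visits, by Markov's inequality -/
theorem vis_markov (P : Measure Ω) {S R : Ω → Ω} (hS : MeasurePreserving S P P)
    (hR : MeasurePreserving R P P) (N : ℕ) (V : Set Ω) (hV : MeasurableSet V) (c : ℝ≥0∞) :
    c * P {ω | c ≤ (vis S R (bx N) V ω : ℝ≥0∞)} ≤ (N * N : ℝ≥0∞) * P V := by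
  have h4 := mul_meas_ge_le_lintegral (μ := P)
    (vis_measurable hS.measurable hR.measurable (bx N) V hV) c
  rw [vis_lintegral P hS hR _ _ hV, card_bx] at h4
  refine h4.trans (le_of_eq ?_)
  push_cast
  rfl

theorem orb_ae (P : Measure Ω) {S R : Ω → Ω} (hS : MeasurePreserving S P P)
    (hR : MeasurePreserving R P P) (φ : Ω → AddCircle (1 : ℝ))
    (h2 : ∀ᵐ ω ∂P, φ (S ω) = (2 : ℕ) • φ ω) (h3 : ∀ᵐ ω ∂P, φ (R ω) = (3 : ℕ) • φ ω) :
    ∀ᵐ ω ∂P, ∀ v : ℕ × ℕ, φ (orb S R v ω) = sp v (φ ω) := by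
  rw [ae_all_iff]
  rintro ⟨a, b⟩
  induction a with
  | zero =>
    induction b with
    | zero =>
      filter_upwards with ω
      simp [orb, sp]
    | succ b ih =>
      have h3' := (hR.iterate b).quasiMeasurePreserving.ae h3
      filter_upwards [ih, h3'] with ω h4 h5
      simp only [orb, sp, Function.iterate_zero, id_eq, pow_zero, one_mul] at h4 h5 ⊢
      rw [Function.iterate_succ_apply', h5, h4, smul_smul]
      congr 1
      ring
  | succ a ih =>
    have h2' := ((hS.iterate a).comp (hR.iterate b)).quasiMeasurePreserving.ae h2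
    filter_upwards [ih, h2'] with ω h4 h5
    simp only [orb, sp, Function.comp_apply] at h4 h5 ⊢
    rw [Function.iterate_succ_apply', h5, h4, smul_smul]
    congr 1
    ring

theorem map_mp (P : Measure Ω) {S : Ω → Ω} (hS : MeasurePreserving S P P)
    (φ : Ω → AddCircle (1 : ℝ)) (hφ : Measurable φ) (k : ℕ)
    (h2 : ∀ᵐ ω ∂P, φ (S ω) = k • φ ω) :
    MeasurePreserving (fun x => k • x) (P.map φ) (P.map φ) := by
  refine ⟨(continuous_nsmul k).measurable, ?_⟩
  rw [Measure.map_map (continuous_nsmul k).measurable hφ]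
  have e : P.map ((fun x : AddCircle (1 : ℝ) => k • x) ∘ φ) = P.map (φ ∘ S) := by
    refine Measure.map_congr ?_
    filter_upwards [h2] with ω h
    exact h.symm
  rw [e, ← Measure.map_map hφ hS.measurable, hS.map_eq]

omit [MeasurableSpace Ω] in
/-- many points in the union of few sets: two are in the same set -/
theorem two_same (S R : Ω → Ω) (N K : ℕ) (B : Fin K → Set Ω) (V : Set Ω)
    (hV : (⋃ i, B i)ᶜ ⊆ V) (hK : 2 * K < N * N) (ω : Ω)
    (hz : 2 * vis S R (bx N) V ω ≤ N * N) :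
    ∃ v ∈ bx N, ∃ v' ∈ bx N, v ≠ v' ∧ ∃ i, orb S R v ω ∈ B i ∧ orb S R v' ω ∈ B i := by
  classical
  set A := (bx N).filter (fun p => orb S R p ω ∉ V) with hA
  have h1 : A.card + vis S R (bx N) V ω = N * N := by
    rw [hA, ← card_bx N]
    unfold vis
    rw [add_comm]
    exact Finset.card_filter_add_card_filter_not (s := bx N) (fun p => orb S R p ω ∈ V)
  have h2 : K < A.card := by omega
  have h3 : ∀ p ∈ A, ∃ i, orb S R p ω ∈ B i := by
    intro p hp
    rw [hA, Finset.mem_filter] at hp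
    have : orb S R p ω ∈ ⋃ i, B i := by
      by_contra hcon
      exact hp.2 (hV hcon)
    simpa using this
  have hne : Nonempty (Fin K) := by
    obtain ⟨p, hp⟩ : A.Nonempty := Finset.card_pos.1 (by omega)
    obtain ⟨i, -⟩ := h3 p hp
    exact ⟨i⟩
  choose! f hf using h3
  have h4 : (Finset.univ : Finset (Fin K)).card < A.card := by simpa using h2
  obtain ⟨v, hv, v', hv', hne, heq⟩ := Finset.exists_ne_map_eq_of_card_lt_of_maps_to h4
    (f := f) (fun p _ => Finset.mem_univ _)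
  refine ⟨v, (Finset.mem_filter.1 hv).1, v', (Finset.mem_filter.1 hv').1, hne, f v, hf v hv, ?_⟩
  rw [heq]
  exact hf v' hv'

theorem measD (P : Measure Ω) [IsProbabilityMeasure P] {S R : Ω → Ω}
    (hS : MeasurePreserving S P P) (hR : MeasurePreserving R P P) (φ : Ω → AddCircle (1 : ℝ))
    (hφ : Measurable φ) (h2 : ∀ᵐ ω ∂P, φ (S ω) = (2 : ℕ) • φ ω)
    (h3 : ∀ᵐ ω ∂P, φ (R ω) = (3 : ℕ) • φ ω) (n N K : ℕ) (hn : 1 ≤ n)
    (B : Fin K → Set Ω) (hK : 2 * K < N * N) (h : ℝ)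
    (hB : ∀ i, ∀ x ∈ B i, ∀ y ∈ B i, (cnt (bx n) far (φ x - φ y) : ℝ) ≤ h) (T f : ℝ) (hf : 0 ≤ f)
    (hdet : ∀ y : AddCircle (1 : ℝ), (cnt (bx n) far y : ℝ) ≤ h →
      (cnt (bx n) (dp T) y : ℝ) ≤ f * ((n : ℝ) * n)) :
    (P.map φ) (per N T)ᶜ ≤ ENNReal.ofReal f + 2 * P (⋃ i, B i)ᶜ := by
  classical
  have hν2 := map_mp P hS φ hφ 2 h2
  have hν3 := map_mp P hR φ hφ 3 h3
  set V := toMeasurable P (⋃ i, B i)ᶜ with hV
  have hVm : MeasurableSet V := measurableSet_toMeasurable _ _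
  have hVs : (⋃ i, B i)ᶜ ⊆ V := subset_toMeasurable _ _
  have hVν : P V = P (⋃ i, B i)ᶜ := measure_toMeasurable _
  have hN0 : 0 < N := by
    rcases Nat.eq_zero_or_pos N with h | h
    · subst h; omega
    · exact h
  -- the exceptional points
  set Z : Set Ω := {z | (N * N : ℝ≥0∞) ≤ 2 * (vis S R (bx N) V z : ℝ≥0∞)} with hZ
  have hvm := vis_measurable hS.measurable hR.measurable (bx N) V hVm
  have hZm : MeasurableSet Z := measurableSet_le measurable_const (hvm.const_mul _)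
  have hZν : P Z ≤ 2 * P V := by
    have h4 : (N * N : ℝ≥0∞) * P Z ≤ ∫⁻ z, 2 * (vis S R (bx N) V z : ℝ≥0∞) ∂P :=
      mul_meas_ge_le_lintegral (hvm.const_mul _) _
    rw [lintegral_const_mul _ hvm, vis_lintegral P hS hR _ _ hVm, card_bx] at h4
    have hNN : (N * N : ℝ≥0∞) ≠ 0 := by
      simp only [ne_eq, mul_eq_zero, Nat.cast_eq_zero, or_self]
      omega
    have hNT : (N * N : ℝ≥0∞) ≠ ⊤ := ENNReal.mul_ne_top (ENNReal.natCast_ne_top _) (ENNReal.natCast_ne_top _)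
    have h5 : (N * N : ℝ≥0∞) * P Z ≤ (N * N : ℝ≥0∞) * (2 * P V) := by
      refine h4.trans (le_of_eq ?_)
      push_cast
      ring
    exact (ENNReal.mul_le_mul_iff_right hNN hNT).1 h5
  -- pointwise
  have hpt : ∀ᵐ ω ∂P, (cnt (bx n) (per N T)ᶜ (φ ω) : ℝ≥0∞) ≤
      ENNReal.ofReal f * (n * n : ℝ≥0∞) + Z.indicator (fun _ => (n * n : ℝ≥0∞)) ω := by
    filter_upwards [orb_ae P hS hR φ h2 h3] with ω hω
    by_cases hz : ω ∈ Z
    · rw [Set.indicator_of_mem hz]
      refine le_add_left ?_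
      have := cnt_le_card (bx n) (per N T)ᶜ (φ ω)
      rw [card_bx] at this
      exact_mod_cast this
    · refine le_add_right ?_
      have hz' : 2 * vis S R (bx N) V ω ≤ N * N := by
        rw [hZ, Set.mem_ofPred_eq, not_le] at hz
        have hz2 : 2 * vis S R (bx N) V ω < N * N := by exact_mod_cast hz
        exact hz2.le
      obtain ⟨v, hv, v', hv', hne, i, hvi, hvi'⟩ := two_same S R N K B V hVs hK ω hz'
      have h6 := hdet _ (hB i _ hvi _ hvi')
      rw [hω v, hω v'] at h6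
      have h7 : cnt (bx n) (per N T)ᶜ (φ ω) ≤ cnt (bx n) (dp T) (sp v (φ ω) - sp v' (φ ω)) := by
        refine cnt_imp _ _ _ _ _ fun p _ hp => ?_
        have h8 : ¬ (∃ v ∈ bx N, ∃ v' ∈ bx N, v ≠ v' ∧
            ‖sp v (sp p (φ ω)) - sp v' (sp p (φ ω))‖ < 1 / 36 * Real.exp (-T)) := hp
        push Not at h8
        have h9 := h8 v hv v' hv' hne
        have e : sp v (sp p (φ ω)) - sp v' (sp p (φ ω)) = sp p (sp v (φ ω) - sp v' (φ ω)) := by
          rw [← sp_add, ← sp_add, add_comm v p, add_comm v' p, sp_add, sp_add]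
          unfold sp
          rw [smul_sub]
        rw [e] at h9
        exact h9
      have h10 : (cnt (bx n) (per N T)ᶜ (φ ω) : ℝ) ≤ f * ((n : ℝ) * n) :=
        le_trans (by exact_mod_cast h7) h6
      have h11 : (n * n : ℝ≥0∞) = ENNReal.ofReal ((n : ℝ) * n) := by
        rw [ENNReal.ofReal_mul (Nat.cast_nonneg _), ENNReal.ofReal_natCast]
      rw [h11, ← ENNReal.ofReal_mul hf, ← ENNReal.ofReal_natCast]
      exact ENNReal.ofReal_le_ofReal h10
  have hper : MeasurableSet (per N T)ᶜ := (per_open N T).measurableSet.compl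
  have hint : ∫⁻ ω, (cnt (bx n) (per N T)ᶜ (φ ω) : ℝ≥0∞) ∂P ≤
      ∫⁻ ω, (ENNReal.ofReal f * (n * n : ℝ≥0∞) + Z.indicator (fun _ => (n * n : ℝ≥0∞)) ω) ∂P :=
    lintegral_mono_ae hpt
  have hint2 : ∫⁻ ω, (cnt (bx n) (per N T)ᶜ (φ ω) : ℝ≥0∞) ∂P =
      ((bx n).card : ℝ≥0∞) * (P.map φ) (per N T)ᶜ := by
    rw [← cnt_lintegral (P.map φ) hν2 hν3 _ _ hper,
      lintegral_map (cnt_measurable _ _ hper) hφ]
  rw [hint2, card_bx, lintegral_add_left measurable_const, lintegral_const, measure_univ, mul_one,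
    lintegral_indicator hZm, setLIntegral_const] at hint
  have hnn : (n * n : ℝ≥0∞) ≠ 0 := by
    simp only [ne_eq, mul_eq_zero, Nat.cast_eq_zero, or_self]
    omega
  have hnT : (n * n : ℝ≥0∞) ≠ ⊤ := ENNReal.mul_ne_top (ENNReal.natCast_ne_top _) (ENNReal.natCast_ne_top _)
  have hfin : (n * n : ℝ≥0∞) * (P.map φ) (per N T)ᶜ ≤
      (n * n : ℝ≥0∞) * (ENNReal.ofReal f + 2 * P (⋃ i, B i)ᶜ) := by
    have h12 : (n * n : ℝ≥0∞) * (P.map φ) (per N T)ᶜ ≤
        ENNReal.ofReal f * (n * n : ℝ≥0∞) + (n * n : ℝ≥0∞) * P Z := by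
      refine le_trans (le_of_eq ?_) hint
      push_cast
      rfl
    refine h12.trans ?_
    rw [mul_add, mul_comm (ENNReal.ofReal f)]
    refine add_le_add_right ?_ _
    rw [← hVν]
    exact mul_le_mul_right hZν _
  exact (ENNReal.mul_le_mul_iff_right hnn hnT).1 hfin

end system

end Pool.Agent.CplxN
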