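import Pool.Agent.CplxN.Box

/-! Complexity of `×2`, `×3`-invariant measures: from the expansiveness constant to small depths. -/

namespace Pool.Agent.CplxN

open Pool.Agent.SubT Pool.Agent.SlowV

open scoped BigOperators ENNReal

open MeasureTheory Set

theorem norm_nsmul_eq (m : ℕ) (x : AddCircle (1 : ℝ)) (h : (m : ℝ) * ‖x‖ ≤ 1 / 2) :
    ‖m • x‖ = m * ‖x‖ := by
  obtain ⟨y, rfl⟩ := QuotientAddGroup.mk_surjective x
  set z : ℝ := y - round y with hz
  have hyz : ((y : ℝ) : AddCircle (1 : ℝ)) = ((z : ℝ) : AddCircle (1 : ℝ)) := by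
    have : ((round y : ℝ) : AddCircle (1 : ℝ)) = 0 := by
      have := AddCircle.coe_period (1 : ℝ)
      rw [show ((round y : ℤ) : ℝ) = (round y : ℤ) • (1 : ℝ) by simp, AddCircle.coe_zsmul, this,
        smul_zero]
    rw [hz, AddCircle.coe_sub, this, sub_zero]
  have hn : ‖((y : ℝ) : AddCircle (1 : ℝ))‖ = |z| := in_norm y
  change (m : ℝ) * ‖((y : ℝ) : AddCircle (1 : ℝ))‖ ≤ 1 / 2 at h
  change ‖m • ((y : ℝ) : AddCircle (1 : ℝ))‖ = m * ‖((y : ℝ) : AddCircle (1 : ℝ))‖
  rw [hn] at h ⊢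
  rw [hyz, ← AddCircle.coe_nsmul, nsmul_eq_mul]
  have h2 : |(m : ℝ) * z| ≤ |(1 : ℝ)| / 2 := by
    rw [abs_mul, abs_one, Nat.abs_cast]
    exact h
  rw [(AddCircle.norm_coe_eq_abs_iff (1 : ℝ) one_ne_zero).2 h2, abs_mul, Nat.abs_cast]

/-- the far points -/
def far : Set (AddCircle (1 : ℝ)) := {x | 1 / 4 ≤ ‖x‖}

theorem exists_far (k : ℕ) (x : AddCircle (1 : ℝ)) (h : 1 / 4 ≤ 2 ^ k * ‖x‖) :
    ∃ i ≤ k, (2 ^ i : ℕ) • x ∈ far := by
  by_contra hcon
  push Not at hcon
  have h1 : ∀ i ≤ k, ‖(2 ^ i : ℕ) • x‖ = 2 ^ i * ‖x‖ := by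
    intro i
    induction i with
    | zero => intro _; simp
    | succ i ih =>
      intro hi
      have h2 := ih (by omega)
      have h3 : ‖(2 ^ i : ℕ) • x‖ < 1 / 4 := not_le.1 (hcon i (by omega))
      have h4 : (2 ^ (i + 1) : ℕ) • x = (2 : ℕ) • ((2 ^ i : ℕ) • x) := by
        rw [smul_smul]; congr 1; ring
      rw [h4, norm_nsmul_eq 2 _ (by push_cast; linarith), h2]
      push_cast
      ring
  have h2 := h1 k le_rfl
  have h3 : ‖(2 ^ k : ℕ) • x‖ < 1 / 4 := not_le.1 (hcon k le_rfl)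
  linarith

theorem sp_zero_right (k : ℕ) (x : AddCircle (1 : ℝ)) : sp (k, 0) x = (2 ^ k : ℕ) • x := by
  simp [sp]

/-- a shifted count -/
theorem shift_far (k n : ℕ) (S : Set (AddCircle (1 : ℝ))) (y : AddCircle (1 : ℝ)) :
    cnt (bx n) {x | sp (k, 0) x ∈ S} y ≤ cnt (bx n) S y + k * n := by
  classical
  have h1 : cnt (bx n) {x | sp (k, 0) x ∈ S} y ≤
      ((bx n).filter (fun p => (p + (k, 0)) ∈ bx n ∧ sp (p + (k, 0)) y ∈ S)).card +
      ((Finset.Ico (n - k) n) ×ˢ Finset.range n).card := by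
    unfold cnt
    refine (Finset.card_le_card ?_).trans (Finset.card_union_le _ _)
    intro p hp
    rw [Finset.mem_filter] at hp
    obtain ⟨hp1, hp2⟩ := hp
    have hp3 : sp (p + (k, 0)) y ∈ S := by
      rw [add_comm, sp_add]
      exact hp2
    rw [Finset.mem_union]
    by_cases h : p + (k, 0) ∈ bx n
    · left
      rw [Finset.mem_filter]
      exact ⟨hp1, h, hp3⟩
    · right
      rw [mem_bx] at hp1 h
      simp only [Prod.fst_add, Prod.snd_add, add_zero] at h
      rw [Finset.mem_product, Finset.mem_Ico, Finset.mem_range]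
      omega
  have h2 : ((bx n).filter (fun p => (p + (k, 0)) ∈ bx n ∧ sp (p + (k, 0)) y ∈ S)).card ≤
      cnt (bx n) S y := by
    unfold cnt
    refine Finset.card_le_card_of_injOn (fun u => u + (k, 0)) ?_ ?_
    · intro u hu
      simp only [Finset.coe_filter, Set.mem_ofPred_eq] at hu ⊢
      exact hu.2
    · intro u _ w _ h
      exact add_right_cancel h
  have h3 : ((Finset.Ico (n - k) n) ×ˢ Finset.range n).card ≤ k * n := by
    rw [Finset.card_product, Nat.card_Ico, Finset.card_range]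
    apply Nat.mul_le_mul_right
    omega
  omega

theorem start (G : ℝ) (k : ℕ) (hk : 1 / 4 ≤ 2 ^ k * (1 / 36 * Real.exp (-G)))
    (y : AddCircle (1 : ℝ)) (n : ℕ) :
    cnt (bx n) (dp G) y ≤ (k + 1) * (cnt (bx n) far y + k * n) := by
  classical
  have h1 : cnt (bx n) (dp G) y ≤ ∑ i ∈ Finset.range (k + 1), cnt (bx n) {x | sp (i, 0) x ∈ far} y := by
    unfold cnt
    refine (Finset.card_le_card ?_).trans Finset.card_biUnion_le
    intro p hp
    rw [Finset.mem_filter] at hp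
    obtain ⟨hp1, hp2⟩ := hp
    have hp3 : 1 / 4 ≤ 2 ^ k * ‖sp p y‖ := hk.trans (mul_le_mul_of_nonneg_left hp2 (by positivity))
    obtain ⟨i, hi, h⟩ := exists_far k _ hp3
    rw [Finset.mem_biUnion]
    refine ⟨i, Finset.mem_range.2 (by omega), ?_⟩
    rw [Finset.mem_filter]
    refine ⟨hp1, ?_⟩
    rw [← sp_zero_right] at h
    exact h
  have h2 : ∀ i ∈ Finset.range (k + 1), cnt (bx n) {x | sp (i, 0) x ∈ far} y ≤
      cnt (bx n) far y + k * n := by
    intro i hi
    refine (shift_far i n far y).trans ?_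
    have : i * n ≤ k * n := Nat.mul_le_mul_right n (by rw [Finset.mem_range] at hi; omega)
    omega
  have h3 := Finset.sum_le_card_nsmul _ _ _ h2
  rw [Finset.card_range, smul_eq_mul] at h3
  exact h1.trans h3

end Pool.Agent.CplxN
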