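import Pool.Agent.CplxN.Main

/-! Complexity of `×2`, `×3`-invariant measures: long windows of scales. -/

namespace Pool.Agent.CplxN

open Pool.Agent.SubT Pool.Agent.SlowV

open scoped BigOperators ENNReal

open MeasureTheory Set Filter Topology

/-- a sequence of scales with a property which holds at least once in each window -/
theorem low_seq' (Low : ℕ → Prop) (U : ℕ → ℝ) (g : ℕ → ℕ) (hg : ∀ b, b ≤ g b) (m₀ : ℕ)
    (h : ∀ m, m₀ ≤ m → ∃ n : ℕ, m ≤ n ∧ (n : ℝ) ≤ U m ∧ Low n) :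
    ∃ a : ℕ → ℕ, (∀ j, m₀ ≤ a j) ∧ (∀ j, Low (a j)) ∧
      (∀ j, g (a j) ≤ a (j + 1)) ∧ ∀ j, (a (j + 1) : ℝ) ≤ U (g (a j)) := by
  have hcon' : ∀ m : ℕ, ∃ n : ℕ, m₀ ≤ m → m ≤ n ∧ (n : ℝ) ≤ U m ∧ Low n := by
    intro m
    by_cases hm : m₀ ≤ m
    · obtain ⟨n, h1, h2, h3⟩ := h m hm
      exact ⟨n, fun _ => ⟨h1, h2, h3⟩⟩
    · exact ⟨0, fun h => absurd h hm⟩
  choose nx hnx using hcon'
  set a : ℕ → ℕ := fun j => Nat.rec (nx m₀) (fun _ b => nx (g b)) j with ha
  have ha0 : a 0 = nx m₀ := rfl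
  have has : ∀ j, a (j + 1) = nx (g (a j)) := fun j => rfl
  have hlow : ∀ j, m₀ ≤ a j ∧ Low (a j) := by
    intro j
    induction j with
    | zero =>
      obtain ⟨h4, -, h6⟩ := hnx m₀ le_rfl
      rw [ha0]
      exact ⟨h4, h6⟩
    | succ j ih =>
      obtain ⟨i1, i2⟩ := ih
      obtain ⟨h4, -, h6⟩ := hnx (g (a j)) (i1.trans (hg _))
      rw [has]
      exact ⟨(i1.trans (hg _)).trans h4, h6⟩
  refine ⟨a, fun j => (hlow j).1, fun j => (hlow j).2, fun j => ?_, fun j => ?_⟩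
  · obtain ⟨h4, -, -⟩ := hnx (g (a j)) ((hlow j).1.trans (hg _))
    rw [has]
    exact h4
  · obtain ⟨-, h5, -⟩ := hnx (g (a j)) ((hlow j).1.trans (hg _))
    rw [has]
    exact h5

theorem log_three_ge : (1 : ℝ) ≤ Real.log 3 := by
  rw [Real.le_log_iff_exp_le (by norm_num)]
  have h15 := Real.exp_one_lt_d9
  linarith

section system

variable {Ω : Type*} [MeasurableSpace Ω]

theorem win_le_one (P : Measure Ω) [IsProbabilityMeasure P] {S R : Ω → Ω}
    (hS : MeasurePreserving S P P) (hR : MeasurePreserving R P P) (φ : Ω → AddCircle (1 : ℝ))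
    (hφ : Measurable φ) (h2 : ∀ᵐ ω ∂P, φ (S ω) = (2 : ℕ) • φ ω)
    (h3 : ∀ᵐ ω ∂P, φ (R ω) = (3 : ℕ) • φ ω) (hat : ∀ x, (P.map φ) {x} = 0)
    (η : ℝ) (hη : 0 < η) (hη1 : η ≤ 1) (ρ τ : ℝ) (hρ : 0 ≤ ρ) (hτ : 1 ≤ τ) (hρτ : ρ * τ < 2)
    (m₀ : ℕ) :
    ∃ m ≥ m₀, ∀ n : ℕ, m ≤ n → (n : ℝ) ≤ (m : ℝ) ^ τ →
      ∀ (K : ℕ) (B : Fin K → Set Ω), (K : ℝ) ≤ (n : ℝ) ^ ρ →
      (∀ i, ∀ x ∈ B i, ∀ y ∈ B i, (cnt (bx n) far (φ x - φ y) : ℝ) ≤ (n : ℝ) ^ (2 - η)) →
      ENNReal.ofReal ((Real.log (Real.log n)) ^ (-(1 + η))) < P (⋃ i, B i)ᶜ := by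
  by_contra hcon
  push Not at hcon
  -- the exponents
  set b : ℝ := ρ * τ with hb
  have hb0 : 0 ≤ b := by positivity
  set t : ℝ := 1 + (2 - b) / (2 * (b + 1)) with ht
  have ht1 : 1 < t := by
    have : 0 < (2 - b) / (2 * (b + 1)) := div_pos (by linarith) (by linarith)
    linarith
  have htb : b * t < 2 := by
    have h4 : b * ((2 - b) / (2 * (b + 1))) ≤ (2 - b) / 2 := by
      have h5 : b * ((2 - b) / (2 * (b + 1))) = (2 - b) / 2 * (b / (b + 1)) := by
        field_simp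
      rw [h5]
      have h6 : b / (b + 1) ≤ 1 := (div_le_one (by linarith)).2 (by linarith)
      have h7 : 0 ≤ (2 - b) / 2 := by linarith
      nlinarith
    have h8 : b * t = b + b * ((2 - b) / (2 * (b + 1))) := by rw [ht]; ring
    linarith
  obtain ⟨a, hm, hlow, hge, hnext⟩ := low_seq' (fun n => ∃ (K : ℕ) (B : Fin K → Set Ω),
      (K : ℝ) ≤ (n : ℝ) ^ ρ ∧
      (∀ i, ∀ x ∈ B i, ∀ y ∈ B i, (cnt (bx n) far (φ x - φ y) : ℝ) ≤ (n : ℝ) ^ (2 - η)) ∧
      P (⋃ i, B i)ᶜ ≤ ENNReal.ofReal ((Real.log (Real.log n)) ^ (-(1 + η))))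
    (fun m => (m : ℝ) ^ τ) (fun b => ⌈(b : ℝ) ^ t⌉₊) (fun b => by
      rcases Nat.eq_zero_or_pos b with h | h
      · omega
      · have h1 : (b : ℝ) ≤ (b : ℝ) ^ t := by
          conv_lhs => rw [← Real.rpow_one (b : ℝ)]
          exact Real.rpow_le_rpow_of_exponent_le (by exact_mod_cast h) ht1.le
        exact_mod_cast h1.trans (Nat.le_ceil _)) (max m₀ 3)
    (fun m hm => hcon m ((le_max_left _ _).trans hm))
  choose K B hK hB hP using hlow
  have ha3 : ∀ j, 3 ≤ a j := fun j => (le_max_right _ _).trans (hm j)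
  have ha1 : ∀ j, (1 : ℝ) ≤ a j := fun j => by
    have := ha3 j
    exact_mod_cast (by omega : 1 ≤ a j)
  have hpow : ∀ j, (a j : ℝ) ^ t ≤ a (j + 1) := fun j =>
    (Nat.le_ceil _).trans (by exact_mod_cast hge j)
  -- growth
  have hlog : ∀ j, t ^ j ≤ Real.log (a j) := by
    intro j
    induction j with
    | zero =>
      rw [pow_zero]
      refine log_three_ge.trans (Real.log_le_log (by norm_num) ?_)
      exact_mod_cast ha3 0
    | succ j ih =>
      have h4 : Real.log ((a j : ℝ) ^ t) ≤ Real.log (a (j + 1)) :=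
        Real.log_le_log (Real.rpow_pos_of_pos (by linarith [ha1 j]) _) (hpow j)
      rw [Real.log_rpow (by linarith [ha1 j])] at h4
      rw [pow_succ]
      nlinarith
  have hlt : Tendsto (fun j => Real.log (a j)) atTop atTop :=
    tendsto_atTop_mono hlog (tendsto_pow_atTop_atTop_of_one_lt ht1)
  have hat' : Tendsto (fun j => (a j : ℝ)) atTop atTop := by
    refine tendsto_atTop_mono (fun j => ?_) hlt
    exact (Real.log_le_sub_one_of_pos (by linarith [ha1 j])).trans (by linarith)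
  have hBer : ∀ j : ℕ, 1 + (j : ℝ) * (t - 1) ≤ t ^ j := by
    intro j
    have := one_add_mul_le_pow (by linarith : (-2 : ℝ) ≤ t - 1) j
    have e : (1 + (t - 1)) = t := by ring
    rwa [e] at this
  have hsum : ∀ z : ℝ, 0 < z → Summable (fun j : ℕ => (a j : ℝ) ^ (-z)) := by
    intro z hz
    have h4 : ∀ j, (a j : ℝ) ^ (-z) ≤ (Real.exp (-(z * (t - 1)))) ^ j := by
      intro j
      rw [Real.rpow_def_of_pos (by linarith [ha1 j]), ← Real.exp_nat_mul]
      apply Real.exp_le_exp.2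
      have h5 := (hBer j).trans (hlog j)
      have h6 := mul_le_mul_of_nonneg_left h5 hz.le
      nlinarith
    refine Summable.of_nonneg_of_le (fun j => by positivity) h4 ?_
    refine summable_geometric_of_lt_one (Real.exp_pos _).le ?_
    rw [Real.exp_lt_one_iff]
    have : 0 < z * (t - 1) := mul_pos hz (by linarith)
    linarith
  set q : ℝ := b * t / 2 with hq
  set c : ℝ := 1 - q with hc
  have hq0 : 0 ≤ q := by positivity
  have hc0 : 0 < c := by rw [hc, hq]; linarith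
  obtain ⟨G, L, C, hG, hL, hC, hcore⟩ := core η hη hη1
  have hxt : Tendsto (fun j => (a j : ℝ) ^ (1 - c / 2)) atTop atTop :=
    (tendsto_rpow_atTop (by linarith)).comp hat'
  obtain ⟨J, hJ⟩ := exists_J' _ hxt G (by linarith)
  set N : ℕ → ℕ := fun j => ⌈2 * (a j : ℝ) ^ (ρ / 2)⌉₊ with hN
  have he1 : ∀ᶠ j in atTop, (20 : ℝ) ≤ (a j : ℝ) ^ (c / 2) :=
    ((tendsto_rpow_atTop (by linarith : 0 < c / 2)).comp hat').eventually_ge_atTop 20
  have hTt : Tendsto (fun j => G * 2 ^ (J j)) atTop atTop :=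
    tendsto_atTop_mono' _ (hJ.mono fun j hj => hj.1.le) (hxt.atTop_div_const (by norm_num))
  have hloglog : ∀ j : ℕ, (j : ℝ) * Real.log t ≤ Real.log (Real.log (a j)) := by
    intro j
    have h4 := Real.log_le_log (by positivity) (hlog j)
    rwa [Real.log_pow] at h4
  have hlogt : 0 < Real.log t := Real.log_pos ht1
  refine hcore P hS hR φ hφ h2 h3 hat a N J K
    (fun j => (Real.log (Real.log (a j))) ^ (-(1 + η))) B ?_ hTt ?_
  · filter_upwards [he1, hJ, eventually_ge_atTop 1] with j h4 h8 hj1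
    have h1 := ha1 j
    have hpos : (0 : ℝ) < a j := by linarith
    have hll : 0 < Real.log (Real.log (a j)) := by
      have h5 : (1 : ℝ) ≤ j := by exact_mod_cast hj1
      have h6 := hloglog j
      nlinarith
    refine ⟨by exact_mod_cast h1, ?_, ?_, hB j, hP j, (Real.rpow_pos_of_pos hll _).le, ?_⟩
    · refine h8.2.trans ?_
      conv_rhs => rw [← Real.rpow_one (a j : ℝ)]
      exact Real.rpow_le_rpow_of_exponent_le h1 (by linarith)
    · have h9 : 2 * (a j : ℝ) ^ (ρ / 2) ≤ N j := Nat.le_ceil _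
      have h10 : 0 < 2 * (a j : ℝ) ^ (ρ / 2) := by
        have := Real.rpow_pos_of_pos hpos (ρ / 2)
        positivity
      have h12 : (2 * (a j : ℝ) ^ (ρ / 2)) * (2 * (a j : ℝ) ^ (ρ / 2)) ≤ (N j : ℝ) * N j :=
        mul_le_mul h9 h9 h10.le (by positivity)
      have h11 : 4 * (a j : ℝ) ^ ρ ≤ (N j : ℝ) * N j := by
        refine le_trans (le_of_eq ?_) h12
        have e : (a j : ℝ) ^ ρ = (a j : ℝ) ^ (ρ / 2) * (a j : ℝ) ^ (ρ / 2) := by
          rw [← Real.rpow_add hpos]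
          congr 1
          ring
        rw [e]
        ring
      have h14 : 0 < (N j : ℝ) * N j := lt_of_lt_of_le (mul_pos h10 h10) h12
      have h15 : 2 * (K j : ℝ) < (N j : ℝ) * N j := by
        have := hK j
        linarith
      exact_mod_cast h15
    · have h9 : (N (j + 1) : ℝ) ≤ 2 * (a (j + 1) : ℝ) ^ (ρ / 2) + 1 :=
        (Nat.ceil_lt_add_one (by positivity)).le
      have hat1 : (1 : ℝ) ≤ (a j : ℝ) ^ t := Real.one_le_rpow h1 (by linarith)
      have hceil : ((⌈(a j : ℝ) ^ t⌉₊ : ℕ) : ℝ) ≤ 2 * (a j : ℝ) ^ t := by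
        have := (Nat.ceil_lt_add_one (by positivity : 0 ≤ (a j : ℝ) ^ t)).le
        linarith
      have h10 : (a (j + 1) : ℝ) ^ (ρ / 2) ≤ 2 * (a j : ℝ) ^ q := by
        calc (a (j + 1) : ℝ) ^ (ρ / 2) ≤ ((2 * (a j : ℝ) ^ t) ^ τ) ^ (ρ / 2) := by
              refine Real.rpow_le_rpow (Nat.cast_nonneg _) ((hnext j).trans ?_) (by positivity)
              exact Real.rpow_le_rpow (Nat.cast_nonneg _) hceil (by linarith)
          _ = (2 * (a j : ℝ) ^ t) ^ (b / 2) := by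
              rw [← Real.rpow_mul (by positivity)]
              congr 1
              rw [hb]; ring
          _ = 2 ^ (b / 2) * (a j : ℝ) ^ q := by
              rw [Real.mul_rpow (by norm_num) (by positivity), ← Real.rpow_mul hpos.le]
              congr 2
              rw [hq]; ring
          _ ≤ 2 * (a j : ℝ) ^ q := by
              have h16 : (2 : ℝ) ^ (b / 2) ≤ 2 := by
                conv_rhs => rw [← Real.rpow_one (2 : ℝ)]
                exact Real.rpow_le_rpow_of_exponent_le (by norm_num) (by linarith)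
              exact mul_le_mul_of_nonneg_right h16 (by positivity)
      have h11 : (1 : ℝ) ≤ (a j : ℝ) ^ q := Real.one_le_rpow h1 hq0
      have h17 : (N (j + 1) : ℝ) ≤ 5 * (a j : ℝ) ^ q := by linarith
      have h18 : 0 ≤ Real.log 6 := Real.log_nonneg (by norm_num)
      have h19 : (N (j + 1) : ℝ) * Real.log 6 ≤ 5 * (a j : ℝ) ^ q * 2 :=
        mul_le_mul h17 log_six_le h18 (by positivity)
      have h20 : (a j : ℝ) ^ (1 - c / 2) = (a j : ℝ) ^ q * (a j : ℝ) ^ (c / 2) := by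
        rw [← Real.rpow_add hpos]
        congr 1
        rw [hc]; ring
      have h21 : (a j : ℝ) ^ q * 20 ≤ (a j : ℝ) ^ q * (a j : ℝ) ^ (c / 2) :=
        mul_le_mul_of_nonneg_left h4 (by positivity)
      have h22 := h8.1
      rw [h20] at h22
      linarith
  · have hs : Summable (fun j : ℕ => C * (a j : ℝ) ^ (-(η / 2)) +
        16 * L * (a j : ℝ) ^ (-(c / 2)) +
        2 * (Real.log t ^ (-(1 + η)) * (j : ℝ) ^ (-(1 + η)))) :=
      ((((hsum (η / 2) (by linarith)).mul_left C).add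
        ((hsum (c / 2) (by linarith)).mul_left (16 * L))).add
        (((Real.summable_nat_rpow.2 (by linarith)).mul_left _).mul_left 2))
    refine Summable.of_norm_bounded_eventually_nat hs ?_
    filter_upwards [hJ, eventually_ge_atTop 1] with j h8 hj1
    have hpos : (0 : ℝ) < a j := by linarith [ha1 j]
    have hj0 : (1 : ℝ) ≤ j := by exact_mod_cast hj1
    have hll0 : 0 < (j : ℝ) * Real.log t := by positivity
    have hll : 0 < Real.log (Real.log (a j)) := hll0.trans_le (hloglog j)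
    have h9 : G * 2 ^ (J j) / (a j : ℝ) ≤ (a j : ℝ) ^ (-(c / 2)) := by
      rw [div_le_iff₀ hpos]
      refine h8.2.trans (le_of_eq ?_)
      conv_rhs => rw [← Real.rpow_one (a j : ℝ), ← Real.rpow_mul hpos.le, one_mul,
        ← Real.rpow_add hpos]
      congr 1
      ring
    have h10 : 0 ≤ G * 2 ^ (J j) / (a j : ℝ) := by
      have : 0 < G := by linarith
      positivity
    have h12 : 0 ≤ C * (a j : ℝ) ^ (-(η / 2)) := by positivity
    have h16 : 0 ≤ (Real.log (Real.log (a j))) ^ (-(1 + η)) := (Real.rpow_pos_of_pos hll _).le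
    rw [Real.norm_of_nonneg (by positivity)]
    have h13 : 16 * L * (G * 2 ^ (J j) / (a j : ℝ)) ≤ 16 * L * (a j : ℝ) ^ (-(c / 2)) :=
      mul_le_mul_of_nonneg_left h9 (by positivity)
    have h15 : (Real.log (Real.log (a j))) ^ (-(1 + η)) ≤
        Real.log t ^ (-(1 + η)) * (j : ℝ) ^ (-(1 + η)) := by
      rw [← Real.mul_rpow hlogt.le (by linarith), mul_comm]
      exact Real.rpow_le_rpow_of_nonpos hll0 (hloglog j) (by linarith)
    linarith

theorem loglog_ge_one (n : ℕ) (hn : 16 ≤ n) : 1 ≤ Real.log (Real.log n) := by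
  have hlog2 := Real.log_two_gt_d9
  have h1 : (16 : ℝ) ≤ n := by exact_mod_cast hn
  have h2 : Real.log 16 ≤ Real.log n := Real.log_le_log (by norm_num) h1
  have h3 : Real.log 16 = 4 * Real.log 2 := by
    rw [show (16 : ℝ) = 2 ^ 4 by norm_num, Real.log_pow]
    norm_num
  have h4 : (2.77 : ℝ) ≤ Real.log n := by linarith
  rw [Real.le_log_iff_exp_le (by linarith)]
  have := Real.exp_one_lt_d9
  linarith

/-- **Long windows of scales.** -/
theorem win (P : Measure Ω) [IsProbabilityMeasure P] {S R : Ω → Ω}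
    (hS : MeasurePreserving S P P) (hR : MeasurePreserving R P P) (φ : Ω → AddCircle (1 : ℝ))
    (hφ : Measurable φ) (h2 : ∀ᵐ ω ∂P, φ (S ω) = (2 : ℕ) • φ ω)
    (h3 : ∀ᵐ ω ∂P, φ (R ω) = (3 : ℕ) • φ ω) (hat : ∀ x, (P.map φ) {x} = 0)
    (η : ℝ) (hη : 0 < η) (ρ τ : ℝ) (hρ : 0 ≤ ρ) (hτ : 1 ≤ τ) (hρτ : ρ * τ < 2) (m₀ : ℕ) :
    ∃ m ≥ m₀, ∀ n : ℕ, m ≤ n → (n : ℝ) ≤ (m : ℝ) ^ τ →
      ∀ (K : ℕ) (B : Fin K → Set Ω), (K : ℝ) ≤ (n : ℝ) ^ ρ →
      (∀ i, ∀ x ∈ B i, ∀ y ∈ B i, (cnt (bx n) far (φ x - φ y) : ℝ) ≤ (n : ℝ) ^ (2 - η)) →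
      ENNReal.ofReal ((Real.log (Real.log n)) ^ (-(1 + η))) < P (⋃ i, B i)ᶜ := by
  obtain ⟨m, hm, h⟩ := win_le_one P hS hR φ hφ h2 h3 hat (min η 1) (lt_min hη one_pos)
    (min_le_right _ _) ρ τ hρ hτ hρτ (max m₀ 16)
  have hmin : min η 1 ≤ η := min_le_left _ _
  refine ⟨m, (le_max_left _ _).trans hm, fun n hn hnm K B hK hB => ?_⟩
  have hn16 : 16 ≤ n := ((le_max_right _ _).trans hm).trans hn
  have hn1 : (1 : ℝ) ≤ n := by exact_mod_cast (by omega : 1 ≤ n)
  have h4 := h n hn hnm K B hK fun i x hx y hy =>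
    (hB i x hx y hy).trans (Real.rpow_le_rpow_of_exponent_le hn1 (by linarith))
  refine lt_of_le_of_lt (ENNReal.ofReal_le_ofReal ?_) h4
  exact Real.rpow_le_rpow_of_exponent_le (loglog_ge_one n hn16) (by linarith)

end system

end Pool.Agent.CplxN
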